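import Pool.Agent.P.MP_1a5b27_al.Cy.La

set_option autoImplicit false
set_option linter.style.haveILetI false
set_option linter.unusedSectionVars false
set_option linter.unusedSimpArgs false

open Classical Finset Polynomial
open Pool.Agent.P.MP_ebbeae_al

namespace Pool.Agent.P.MP_1a5b27_al.Cy

variable {G : Type} [Group G] [Fintype G] {O : ValuationSubring ℂ} {p : ℕ}

theorem kill_comm {D : Subgroup G} {m : ℕ} (hf : ∀ x ∈ D, ∀ y ∈ D, (x * y) ^ m = x ^ m * y ^ m)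
    {v0 : G} (hV : ∀ x ∈ D, x ^ m ∈ Subgroup.zpowers v0) {x : G} (hx : x ∈ ⁅D, D⁆) : x ^ m = 1 := by
  let φ : D →* Subgroup.zpowers v0 := MonoidHom.mk' (fun x => ⟨x ^ m, hV x x.2⟩)
    fun a b => Subtype.ext (hf a a.2 b b.2)
  letI : CommGroup (Subgroup.zpowers v0) := IsCyclic.commGroup
  rw [← Subgroup.map_subtype_commutator] at hx
  obtain ⟨y, hy, rfl⟩ := hx
  exact congrArg Subtype.val (MonoidHom.mem_ker.1 (Abelianization.commutator_subset_ker φ hy))

theorem nonvan (hO : (p : O) ∈ mx O) (d : Dat p G) (hm : p ∣ d.m) {D : Subgroup G}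
    (hD : IsPGroup p D) {i : GA O G} (hi : i ∈ Fix O D) (hii : i * i = i) {χ : G → ℂ}
    (hχ : CharOn ⊤ χ) (h0 : ev χ i ∉ O.nonunits) (hV : d.V ≤ ⁅D, D⁆) {x0 : G} (hx0 : x0 ∈ D)
    (h1 : ∀ c ∈ ⁅D, D⁆, d.Λ (x0 * c) ≠ 1) : ∃ x, d.Λ x ≠ 1 ∧ d.R χ x ≠ 0 := by
  have hp := d.hp
  by_contra hc
  push Not at hc
  have key : ∀ u ∈ D, d.Λ u ≠ 1 → ∑ v ∈ el d.V, ev χ (sg (u * v) * i) = 0 := by
    intro u hu h2
    have hpu := PE_of_mem hD hu
    have h3 : ∀ v ∈ d.V, Subgroup.zpowers (u * v) = Subgroup.zpowers u := fun v hv => by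
      obtain ⟨n, rfl⟩ := mem_powers_iff_mem_zpowers.2
        (show v ∈ Subgroup.zpowers (u ^ d.m) from d.ne_iff.1 h2 ▸ hv)
      simp only
      rw [← pow_mul, ← pow_succ']
      exact zpowers_pow hp hpu fun h => hp.one_lt.ne'
        (Nat.dvd_one.1 ((Nat.dvd_add_right (hm.mul_right n)).1 h))
    obtain ⟨a1, a2, -, -⟩ := lc_spec hp hO (Subgroup.mem_top _) hpu (mem_Sup_top _) hii (hi u hu)
    rw [Finset.sum_congr rfl (g := fun v => 1 * ev (fun y => χ (u * v * y)) (lc u i)) fun v hv => by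
      have h4 := mul_mem hu (comm_le D (hV (mem_el.1 hv)))
      rw [(lc_spec hp hO (Subgroup.mem_top _) (PE_of_mem hD h4) (mem_Sup_top _) hii
        (hi _ h4)).2.2.2 χ hχ.cls, lc, h3 v (mem_el.1 hv), ev_sg_mul, one_mul, lc], ← ev_sum]
    refine proj_van hp hO a1 a2 (fun a ha y hy => Finset.sum_congr rfl fun v hv => ?_)
      fun s hs hps => ?_
    · have := hχ.cls.shift (Subgroup.mem_top (u * v))
      rw [h3 v (mem_el.1 hv)] at this
      exact congrArg _ (this a ha y hy)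
    · have h4 := hc (u * s) (by rwa [d.Λ_reg u s hps (mem_CC_zpowers.1 hs.2)])
      rw [Dat.R, mul_eq_zero, or_iff_right (inv_ne_zero (card_ne' _))] at h4
      rw [← h4]
      refine Finset.sum_congr rfl fun v hv => ?_
      rw [one_mul, mul_assoc, mul_assoc, mem_CC.1 hs.2 v (Subgroup.zpowers_le.2
        (pow_mem (Subgroup.mem_zpowers u) d.m) (d.ne_iff.1 h2 ▸ mem_el.1 hv))]
  have h2 := ((hχ.cut le_top (mem_Sup_top _) hi hii).rr.lam hp hO hD hx0).2
  have h3 : ∑ c ∈ el ⁅D, D⁆, ev χ (sg (x0 * c) * i) = 0 := by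
    apply mul_left_cancel₀ (card_ne' d.V)
    rw [mul_zero, ← card_el, ← nsmul_eq_mul, ← sum_const, ← Finset.sum_congr rfl fun v hv =>
      sum_el_mul (one_mem _) (hV (mem_el.1 hv)) fun c => ev χ (sg (x0 * c) * i), Finset.sum_comm]
    refine Finset.sum_eq_zero fun c hc => ?_
    simpa only [one_mul, mul_assoc] using
      key _ (mul_mem hx0 (comm_le D (mem_el.1 hc))) (h1 c (mem_el.1 hc))
  rw [lam, h3, mul_zero, zero_sub, sg_one, one_mul] at h2
  exact h0 (neg_mem_iff.1 h2)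

theorem fixedH (hp : p.Prime) (hO : (p : O) ∈ mx O) {b : GA (kk O) G} (hb : IsBlock ⊤ b)
    {D : Subgroup G} (hD : IsPGroup p D) {e : GA (kk O) G} (s : Src p b D e)
    {χ : G → ℂ} (h0 : IsIrr χ) (h0' : ev χ s.i ∉ O.nonunits) {m a : ℕ}
    (hk : (m + 1) ^ p ^ a ≡ 1 [MOD Nat.card G]) (hm : p ∣ m) (hs : ∀ s : G, preg p s → s ^ m = 1)
    (hf : ∀ x ∈ D, ∀ y ∈ D, (x * y) ^ m = x ^ m * y ^ m) {x0 : G} (hx0 : x0 ∈ D)
    (hV : ∀ x ∈ D, x ^ m ∈ Subgroup.zpowers (x0 ^ m)) (hc : x0 ^ m ∈ ⁅D, D⁆) :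
    (fun g => χ (g ^ (m + 1))) = χ := by
  have hi := mem_irr_top h0
  have hχ := irr_char hi
  have hχb : ∀ z, ev χ (lf b * z) = ev χ z := fun z => by
    rw [om_idem hi hb.1.lf (mem_Sup_top _), if_neg]
    intro h
    have := om_idem hi hb.1.lf (mem_Sup_top s.i)
    rw [if_pos h, s.bi] at this
    exact ne_zero_of_not_nu h0' this
  have hbr : ∀ Q : Subgroup G, IsPGroup p Q → br Q b ≠ 0 → ∃ g, cs g⁻¹ Q ≤ D := fun Q hQ h => by
    obtain ⟨g, hg, -⟩ := exists_conj hp hO hb.1.2.2 hQ s.prim.1 s.ymem s.tr (one_mem _)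
      (by rwa [mul_one])
    exact ⟨g, hg⟩
  have hmp : ¬ p ∣ m + 1 := fun h => hp.one_lt.ne' (Nat.dvd_one.1 ((Nat.dvd_add_right hm).1 h))
  by_cases h1 : x0 ^ m = 1
  · refine funext fun g => ?_
    obtain ⟨u, t, hu, ht, rfl, hc, -⟩ := decomp hp g
    rw [Commute.mul_pow hc, pow_succ t, hs t ht, one_mul]
    by_cases h2 : br (Subgroup.zpowers u) b = 0
    · rw [sec_zero hp hO hχ.cls hb.1 hχb hu ht hc h2, sec_zero hp hO hχ.cls hb.1 hχb ?_ ht
        (Commute.pow_left hc _) (by rwa [zpowers_pow hp hu hmp])]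
      obtain ⟨N, hN⟩ := hu
      exact ⟨N, by rw [pow_right_comm, hN, one_pow]⟩
    · obtain ⟨g, hg⟩ := hbr _ hu.pgroup h2
      have := hV _ (hg (conj_mem_cs.2 (Subgroup.mem_zpowers u)))
      rw [h1, Subgroup.zpowers_one_eq_bot, Subgroup.mem_bot, conj_pow, conj_eq_one_iff] at this
      rw [pow_succ, this, one_mul]
  obtain ⟨κ, k1, k2, k3⟩ := exists_kappa hp (PE_of_mem hD (pow_mem hx0 m)) h1
  let d : Dat p G := ⟨m, x0 ^ m, κ, hp, PE_of_mem hD (pow_mem hx0 m), k1, k2, k3,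
    kill_comm hf hV hc, hs⟩
  obtain ⟨x, hx, hx'⟩ := nonvan hO d hm hD s.prim.1 s.prim.2.1 hχ h0' (Subgroup.zpowers_le.2 hc)
    hx0 fun c hc => d.ne_iff.2 (by
      change Subgroup.zpowers ((x0 * c) ^ m) = _
      rw [hf x0 hx0 c (comm_le D hc), kill_comm hf hV hc, mul_one])
  have hlow := d.lower hχ.cls (fun j θ hθ => twist_int hp hO hχ hb.1 hχb
    (Λ := fun g => d.Λ g ^ j) (fun a ha y hy => by simp only [d.cls a ha y hy])
    (fun Q _ hQ h => by
      obtain ⟨g, hg⟩ := hbr Q hQ h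
      exact charOn_of_mul (by simp [d.Λ_one]) fun x hx y hy => by
        rw [d.hom hf hV hg x hx y hy, mul_pow])
    (fun u s hs hc => by rw [d.Λ_reg u s hs hc]) (fun g => by
      obtain ⟨c, hc⟩ := d.dvd
      rw [hc, pow_right_comm, pow_mul, d.Λ_root, one_pow, one_pow])
    (fun g r hr => by rw [d.Λ_pow g r hr, pow_right_comm]) hθ) hx hx'
  let T : (G → ℂ) → G → ℂ := fun f g => f (g ^ (m + 1))
  have hT1 : ∀ j, T^[j] χ = fun g => χ (g ^ (m + 1) ^ j) := fun j => by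
    induction j with
    | zero => simp
    | succ j ih =>
      rw [Function.iterate_succ_apply', ih]
      exact funext fun g => by simp only [T]; rw [← pow_mul, ← pow_succ']
  have hper : Function.IsPeriodicPt T (p ^ a) χ := by
    rw [Function.IsPeriodicPt, Function.IsFixedPt, hT1]
    refine funext fun g => ?_
    rw [pow_eq_pow_iff_modEq.2 (hk.of_dvd (orderOf_dvd_natCard g)), pow_one]
  obtain ⟨i, -, hi'⟩ := (Nat.dvd_prime_pow hp).1 hper.minimalPeriod_dvd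
  rcases Nat.eq_zero_or_pos i with rfl | hi0
  · exact Function.minimalPeriod_eq_one_iff_isFixedPt.1 hi'
  exfalso
  have hle : p ≤ Function.minimalPeriod T χ := hi' ▸ Nat.le_self_pow hi0.ne' p
  have hco : (m + 1).Coprime (Nat.card G) :=
    Nat.coprime_of_mul_modEq_one ((m + 1) ^ (p ^ a - 1)) (by
      rwa [← pow_succ', Nat.sub_add_cancel (Nat.one_le_pow _ _ hp.pos)])
  have hy : ∀ j x, d.Λ x ≠ 1 → ∃ v ∈ d.V, x ^ (m + 1) ^ j = x * v := fun j x hx => by
    induction j with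
    | zero => exact ⟨1, one_mem _, by simp⟩
    | succ j ih =>
      obtain ⟨v, hv, e⟩ := ih
      refine ⟨v * (x * v) ^ m, mul_mem hv ?_, by rw [pow_succ, pow_mul, e, pow_succ', mul_assoc]⟩
      exact (d.ne_iff.1 (by rwa [d.Λ_mul x hv])).le (Subgroup.mem_zpowers _)
  have hcard : ((range p).image fun j => T^[j] χ).card = p := by
    rw [Finset.card_image_of_injOn (Function.iterate_injOn_Iio_minimalPeriod.mono fun j hj =>
      lt_of_lt_of_le (mem_range.1 hj) hle), card_range]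
  have hb2 := bessel' (univ.filter (d.Λ · ≠ 1)) (stab d.V) (d.R χ) (by simp [d.Λ_one])
    (fun x hx h => by rw [← d.TI (mem_filter.1 hx).2]; simp)
    (fun h hh x => by simpa using d.R_conj hχ.cls (inv_mem hh : h⁻¹ ∈ stab d.V) x)
    ((range p).image fun j => T^[j] χ) (fun f hf => by
      obtain ⟨j, -, rfl⟩ := mem_image.1 hf
      rw [hT1]
      exact mem_irr_top (irr_pow h0 (hco.pow_left j))) (by rw [hcard]; exact hp.pos)
    (irr_one_ne hi) (fun f hf => by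
      obtain ⟨j, -, rfl⟩ := mem_image.1 hf
      rw [hT1]; simp)
    (Finset.sum_pos' (fun _ _ => sq_nonneg _) ⟨x, mem_filter.2 ⟨mem_univ _, hx⟩, by positivity⟩)
    (fun f hf => by
      obtain ⟨j, -, rfl⟩ := mem_image.1 hf
      rw [hT1]
      exact d.tw χ _ (hco.pow_left j).symm.pow_left_bijective.1 (hy j))
  rw [hcard] at hb2
  have h3 : (Nat.card (stab d.V) : ℝ) ≤ Nat.card d.K * (p - 1 : ℕ) := by exact_mod_cast d.index
  linarith

end Pool.Agent.P.MP_1a5b27_al.Cy
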