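import Pool.Agent.P.MP_1a5b27_al.Cy.Fx

set_option autoImplicit false
set_option linter.style.haveILetI false
set_option linter.unusedSectionVars false
set_option linter.unusedSimpArgs false

open Classical Finset Polynomial
open Pool.Agent.P.MP_ebbeae_al

namespace Pool.Agent.P.MP_1a5b27_al.Cy

variable {G : Type} [Group G] [Fintype G] {p : ℕ}

/-- Geometric sums. -/
def gs (a j : ℕ) : ℕ := ∑ i ∈ range j, a ^ i

/-- Double geometric sums. -/
def gS (a b n : ℕ) : ℕ := ∑ j ∈ range n, b ^ j * gs a j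

theorem gs_add (a n j : ℕ) : gs a (n + j) = gs a n + a ^ n * gs a j := by
  simp [gs, sum_range_add, pow_add, Finset.mul_sum]

theorem gS_add (a b n j : ℕ) :
    gS a b (n + j) = gS a b n + b ^ n * (gs a n * gs b j + a ^ n * gS a b j) := by
  simp only [gS, sum_range_add, gs_add]
  rw [gs.eq_1 b j, Finset.mul_sum, Finset.mul_sum, ← Finset.sum_add_distrib, Finset.mul_sum]
  exact congrArg _ (Finset.sum_congr rfl fun _ _ => by ring)

theorem gs_mul (a n i : ℕ) : gs a (n * i) = gs a n * gs (a ^ n) i := by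
  induction i with
  | zero => simp [gs]
  | succ i ih => rw [Nat.mul_succ, gs_add, ih, gs.eq_1 _ (i + 1), sum_range_succ, ← gs, pow_mul]; ring

theorem gs_val (hp : p.Prime) (hp2 : p ≠ 2) {a : ℕ} (ha : a ≡ 1 [MOD p]) (e : ℕ) :
    ∃ u : ℕ, ¬ p ∣ u ∧ gs a (p ^ e) = p ^ e * u := by
  induction e with
  | zero => exact ⟨1, hp.one_lt.ne' ∘ Nat.dvd_one.1, by simp [gs]⟩
  | succ e ih =>
    obtain ⟨u, hu, h⟩ := ih
    obtain ⟨t, ht⟩ := (show 1 ≡ a ^ p ^ e [MOD p] by simpa using (ha.pow (p ^ e)).symm).dvd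
    obtain ⟨w, hw⟩ := odd_sq_dvd_geom_sum₂_sub (R := ℤ) 1 t (hp.odd_of_ne_two hp2)
    have h1 : ((gs (a ^ p ^ e) p : ℕ) : ℤ) = p * (1 + p * w) := by
      simp only [one_pow, mul_one] at hw
      rw [gs, Nat.cast_sum, Finset.sum_congr rfl fun i _ => by
        rw [Nat.cast_pow, show ((a ^ p ^ e : ℕ) : ℤ) = 1 + p * t by rw [← ht]; simp]]
      linear_combination hw
    obtain ⟨u', hu'⟩ : p ∣ gs (a ^ p ^ e) p := Int.natCast_dvd_natCast.1 ⟨_, h1⟩
    refine ⟨u * u', fun hd => (hp.dvd_mul.1 hd).elim hu fun hd => ?_, by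
      rw [pow_succ, gs_mul, h, hu']; ring⟩
    rw [hu', Nat.cast_mul] at h1
    have h2 := mul_left_cancel₀ (by exact_mod_cast hp.ne_zero) h1
    have h3 : (p : ℤ) ∣ 1 :=
      (dvd_add_left (dvd_mul_right _ w)).1 (h2 ▸ Int.natCast_dvd_natCast.2 hd)
    exact hp.one_lt.ne' (Nat.dvd_one.1 (by exact_mod_cast h3))

theorem gS_val (hp : p.Prime) (hp2 : p ≠ 2) {a b : ℕ} (ha : a ≡ 1 [MOD p]) (hb : b ≡ 1 [MOD p])
    (e : ℕ) : p ^ (e + 1) ∣ gS a b (p ^ (e + 1)) := by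
  induction e with
  | zero =>
    rw [zero_add, pow_one, ← ZMod.natCast_eq_zero_iff]
    have h1 : (a : ZMod p) = 1 := by simpa using (ZMod.natCast_eq_natCast_iff _ _ _).2 ha
    have h2 : (b : ZMod p) = 1 := by simpa using (ZMod.natCast_eq_natCast_iff _ _ _).2 hb
    simp only [gS, gs, Nat.cast_sum, Nat.cast_mul, Nat.cast_pow, h1, h2, one_pow, one_mul, sum_const,
      card_range, nsmul_eq_mul, mul_one]
    rw [← Nat.cast_sum, ZMod.natCast_eq_zero_iff]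
    exact ((Nat.coprime_primes hp Nat.prime_two).2 hp2).dvd_of_dvd_mul_right
      (by rw [Finset.sum_range_id_mul_two]; exact dvd_mul_right _ _)
  | succ e ih =>
    obtain ⟨w, hw⟩ := ih
    obtain ⟨u, -, hu⟩ := gs_val hp hp2 ha (e + 1)
    obtain ⟨u', -, hu'⟩ := gs_val hp hp2 hb (e + 1)
    set n := p ^ (e + 1) with hn
    have key : ∀ i, ∃ c, c ≡ i * w [MOD p] ∧ gS a b (n * i) = n * c := by
      intro i
      induction i with
      | zero => exact ⟨0, by simp [Nat.ModEq], by simp [gS]⟩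
      | succ i ih =>
        obtain ⟨c, h1, h2⟩ := ih
        refine ⟨c + b ^ (n * i) * (n * (u * gs (a ^ n) i * u') + a ^ (n * i) * w), ?_, by
          rw [Nat.mul_succ, gS_add, h2, gs_mul, hu, hu', hw]; ring⟩
        have h3 : n * (u * gs (a ^ n) i * u') ≡ 0 [MOD p] :=
          Nat.modEq_zero_iff_dvd.2 ((dvd_pow_self p e.succ_ne_zero).mul_right _)
        have := h1.add ((hb.pow (n * i)).mul (h3.add ((ha.pow (n * i)).mul_right w)))
        rwa [one_pow, one_mul, one_mul, zero_add, ← Nat.succ_mul] at this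
    obtain ⟨c, h1, h2⟩ := key p
    rw [pow_succ p (e + 1), h2]
    exact Nat.mul_dvd_mul_left _ ((h1.dvd_iff dvd_rfl).2 (dvd_mul_right _ _))

theorem conj_pow_eq {x y γ : G} {a : ℕ} (h : x * y * x⁻¹ = γ * y) (ha : x * γ * x⁻¹ = γ ^ a)
    (j : ℕ) : x ^ j * y = γ ^ gs a j * y * x ^ j := by
  induction j with
  | zero => simp [gs]
  | succ j ih =>
    have h1 : x * γ ^ gs a j * x⁻¹ = γ ^ (a * gs a j) := by rw [← conj_pow, ha, pow_mul]
    rw [add_comm, gs_add, pow_one, add_comm (gs a 1), pow_add, pow_add, ← h1, pow_one, mul_assoc, ih,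
      show gs a 1 = 1 by simp [gs], pow_one, mul_assoc _ γ, ← h]
    group

theorem conj_pow_pow {y γ : G} {b : ℕ} (hb : y * γ * y⁻¹ = γ ^ b) (n k : ℕ) :
    y ^ n * γ ^ k = γ ^ (b ^ n * k) * y ^ n := by
  induction n with
  | zero => simp
  | succ n ih =>
    rw [pow_succ', mul_assoc, ih, pow_succ' b, mul_assoc b, pow_mul γ b, ← hb, conj_pow]
    group

theorem mul_pow_eq {x y γ : G} {a b : ℕ} (h : x * y * x⁻¹ = γ * y) (ha : x * γ * x⁻¹ = γ ^ a)
    (hb : y * γ * y⁻¹ = γ ^ b) (n : ℕ) : (y * x) ^ n = γ ^ gS a b n * (y ^ n * x ^ n) := by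
  induction n with
  | zero => simp [gS]
  | succ n ih =>
    rw [pow_succ, ih, gS.eq_1 _ _ (n + 1), sum_range_succ, ← gS, pow_add, mul_assoc, mul_assoc,
      ← mul_assoc (x ^ n), conj_pow_eq h ha, mul_assoc (γ ^ gS a b n), pow_succ y, pow_succ x]
    simp only [← mul_assoc]
    rw [mul_assoc _ (y ^ n), conj_pow_pow hb, ← mul_assoc]

theorem act (hp : p.Prime) {D : Subgroup G} (hD : IsPGroup p D) {c : G}
    (hc : Subgroup.zpowers c = ⁅D, D⁆) {y : G} (hy : y ∈ D) :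
    ∃ a, a ≡ 1 [MOD p] ∧ ∀ z ∈ ⁅D, D⁆, y * z * y⁻¹ = z ^ a := by
  haveI := Fact.mk hp
  have h0 : c ∈ ⁅D, D⁆ := hc ▸ Subgroup.mem_zpowers c
  by_cases h1 : c = 1
  · refine ⟨1, rfl, fun z hz => ?_⟩
    rw [← hc, h1, Subgroup.zpowers_one_eq_bot, Subgroup.mem_bot] at hz
    simp [hz]
  obtain ⟨a, ha⟩ := mem_powers_iff_mem_zpowers.2
    (show y * c * y⁻¹ ∈ Subgroup.zpowers c from hc ▸ conj_mem_comm (cs_of_mem hy) h0)
  simp only at ha
  refine ⟨a, ?_, fun z hz => ?_⟩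
  · obtain ⟨N, hN⟩ := PE_of_mem hD hy
    obtain ⟨M, hM⟩ := PE_of_mem hD (comm_le D h0)
    have h2 := conj_pow_pow ha.symm (p ^ N) 1
    rw [hN, one_mul, mul_one, mul_one, pow_eq_pow_iff_modEq] at h2
    obtain ⟨i, -, hi⟩ := (Nat.dvd_prime_pow hp).1 (orderOf_dvd_of_pow_eq_one hM)
    have h3 := h2.of_dvd (hi ▸ dvd_pow_self p fun h => h1 (orderOf_eq_one_iff.1 (by
      rw [hi, h, pow_zero])) : p ∣ orderOf c)
    rw [← ZMod.natCast_eq_natCast_iff] at h3 ⊢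
    rw [h3, Nat.cast_pow, ZMod.pow_card_pow]
  · obtain ⟨n, rfl⟩ := mem_powers_iff_mem_zpowers.2 (show z ∈ Subgroup.zpowers c from hc ▸ hz)
    simp only
    rw [← conj_pow, ← ha, pow_right_comm]

theorem comm_exp (hp : p.Prime) (hp2 : p ≠ 2) {D : Subgroup G} (hD : IsPGroup p D) {c : G}
    (hc : Subgroup.zpowers c = ⁅D, D⁆) {e : ℕ} (he : ∀ x ∈ D, x ^ p ^ e ∈ ⁅D, D⁆) :
    c ^ p ^ e = 1 := by
  have h0 : c ∈ ⁅D, D⁆ := hc ▸ Subgroup.mem_zpowers c
  have hpc := PE_of_mem hD (comm_le D h0)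
  by_contra h1
  obtain ⟨x, hx, y, hy, γ, h, hγ⟩ : ∃ x ∈ D, ∃ y ∈ D, ∃ γ, x * y * x⁻¹ = γ * y ∧
      Subgroup.zpowers γ = Subgroup.zpowers c := by
    by_contra h2
    push Not at h2
    have h3 : ⁅D, D⁆ ≤ Subgroup.zpowers (c ^ p) := Subgroup.commutator_le.2 fun x hx y hy => by
      have h3 := Subgroup.commutator_mem_commutator hx hy
      rw [← hc] at h3
      obtain ⟨n, hn⟩ := mem_powers_iff_mem_zpowers.2 h3
      simp only at hn
      by_cases h3 : p ∣ n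
      · obtain ⟨t, rfl⟩ := h3
        rw [← hn, pow_mul]; exact pow_mem (Subgroup.mem_zpowers _) t
      · exact absurd (zpowers_pow hp hpc h3) (h2 x hx y hy _ (by
          rw [hn, commutatorElement_def, inv_mul_cancel_right]))
    obtain ⟨M, hM⟩ := hpc
    have h4 := Nat.Coprime.eq_one_of_dvd
      (Nat.Coprime.pow_left M (mem_zpowers_pow_iff.1 (h3 h0))).symm (orderOf_dvd_of_pow_eq_one hM)
    exact h1 (by rw [orderOf_eq_one_iff.1 h4, one_pow])
  rw [hc] at hγ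
  have g0 : γ ∈ ⁅D, D⁆ := hγ ▸ Subgroup.mem_zpowers γ
  obtain ⟨a, ha, ha'⟩ := act hp hD hc hx
  obtain ⟨b, hb, hb'⟩ := act hp hD hc hy
  obtain ⟨k, hk⟩ := mem_powers_iff_mem_zpowers.2
    (show x ^ p ^ e ∈ Subgroup.zpowers γ from hγ ▸ he x hx)
  obtain ⟨l, hl⟩ := mem_powers_iff_mem_zpowers.2
    (show y ^ p ^ e ∈ Subgroup.zpowers γ from hγ ▸ he y hy)
  simp only at hk hl
  have hN : p ^ (e + 1) ∣ orderOf γ := by
    obtain ⟨M, hM⟩ := PE_of_mem hD (comm_le D g0)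
    obtain ⟨i, -, hi⟩ := (Nat.dvd_prime_pow hp).1 (orderOf_dvd_of_pow_eq_one hM)
    rw [hi]
    refine pow_dvd_pow p (Nat.succ_le_of_lt (not_le.1 fun h2 => h1 ?_))
    obtain ⟨n, rfl⟩ := mem_powers_iff_mem_zpowers.2 (show c ∈ Subgroup.zpowers γ from hγ ▸ h0)
    simp only
    rw [pow_right_comm, (orderOf_dvd_iff_pow_eq_one (x := γ)).1 (hi ▸ pow_dvd_pow p h2), one_pow]
  have e1 := conj_pow_eq h (ha' γ g0) (p ^ e)
  have e2 := conj_pow_eq (x := y) (y := x) (γ := γ⁻¹) (by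
    rw [eq_inv_mul_iff_mul_eq, ← mul_assoc, ← mul_assoc, ← h]; group) (hb' _ (inv_mem g0)) (p ^ e)
  have f1 := conj_pow_pow (ha' γ g0) 1
  have f2 := conj_pow_pow (hb' γ g0) 1
  simp only [pow_one] at f1 f2
  rw [← hk, mul_assoc, f2, ← mul_assoc, mul_left_inj, ← pow_add, pow_eq_pow_iff_modEq] at e1
  rw [← hl, mul_assoc, f1, ← mul_assoc, mul_left_inj, inv_pow, eq_inv_mul_iff_mul_eq, ← pow_add,
    pow_eq_pow_iff_modEq] at e2
  have e3 := f1 k
  have e4 := f2 l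
  rw [hk, ← pow_succ', pow_succ x, mul_left_inj, ← hk, pow_eq_pow_iff_modEq] at e3
  rw [hl, ← pow_succ', pow_succ y, mul_left_inj, ← hl, pow_eq_pow_iff_modEq] at e4
  obtain ⟨u, hu, hu1⟩ := gs_val hp hp2 ha e
  obtain ⟨u', hu', hu2⟩ := gs_val hp hp2 hb e
  obtain ⟨t1, d1⟩ := (e1.of_dvd hN).dvd
  obtain ⟨t2, d2⟩ := (e2.of_dvd hN).dvd
  obtain ⟨t3, d3⟩ := (e3.of_dvd hN).dvd
  obtain ⟨t4, d4⟩ := (e4.of_dvd hN).dvd
  rw [hu1] at d1
  rw [hu2] at d2
  push_cast at d1 d2 d3 d4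
  have hq : ((p : ℤ) ^ e) ^ 2 ≠ 0 := pow_ne_zero _ (pow_ne_zero _ (by exact_mod_cast hp.ne_zero))
  have h5 : ((p : ℤ) * t1 - u) * (u' + p * t2) = p * (p * t3 * t4) := mul_left_cancel₀ hq (by
    have c1 : ((b : ℤ) - 1) * k = p ^ e * (p * t1 - u) := by linear_combination d1
    have c2 : ((a : ℤ) - 1) * l = p ^ e * (u' + p * t2) := by linear_combination d2
    have c3 : ((a : ℤ) - 1) * k = p ^ e * (p * t3) := by linear_combination d3
    have c4 : ((b : ℤ) - 1) * l = p ^ e * (p * t4) := by linear_combination d4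
    linear_combination (-(p : ℤ) ^ e * (u' + p * t2)) * c1 - ((b : ℤ) - 1) * k * c2 +
      ((b : ℤ) - 1) * l * c3 + (p : ℤ) ^ e * (p * t3) * c4)
  have h6 : (p : ℤ) ∣ ((u * u' : ℕ) : ℤ) :=
    ⟨t1 * u' + p * t1 * t2 - u * t2 - p * t3 * t4, by push_cast; linear_combination -h5⟩
  exact (hp.dvd_mul.1 (Int.natCast_dvd_natCast.1 h6)).elim hu hu'

/-- In a `p`-group with cyclic derived subgroup, `p` odd, the power map killing the abelianisation
is a homomorphism. -/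
theorem pow_hom (hp : p.Prime) (hp2 : p ≠ 2) {D : Subgroup G} (hD : IsPGroup p D) {c : G}
    (hc : Subgroup.zpowers c = ⁅D, D⁆) {e : ℕ} (he : ∀ x ∈ D, x ^ p ^ (e + 1) ∈ ⁅D, D⁆) {x y : G}
    (hx : x ∈ D) (hy : y ∈ D) : (y * x) ^ p ^ (e + 1) = y ^ p ^ (e + 1) * x ^ p ^ (e + 1) := by
  have g0 : x * y * x⁻¹ * y⁻¹ ∈ ⁅D, D⁆ := Subgroup.commutator_mem_commutator hx hy
  obtain ⟨a, ha, ha'⟩ := act hp hD hc hx
  obtain ⟨b, hb, hb'⟩ := act hp hD hc hy
  obtain ⟨w, hw⟩ := gS_val hp hp2 ha hb e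
  obtain ⟨n, hn⟩ := mem_powers_iff_mem_zpowers.2 (show _ ∈ Subgroup.zpowers c from hc ▸ g0)
  simp only at hn
  rw [mul_pow_eq (inv_mul_cancel_right _ y).symm (ha' _ g0) (hb' _ g0), hw, pow_mul, ← hn,
    pow_right_comm c, comm_exp hp hp2 hD hc he, one_pow, one_pow, one_mul]

variable {O : ValuationSubring ℂ}

theorem main (hp : p.Prime) (hO : (p : O) ∈ mx O) {b : GA (kk O) G}
    (hb : IsBlock ⊤ b) {D : Subgroup G} (hD : IsDefectGroup p b D) {m : ℕ} (hm1 : 1 ≤ m)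
    (hcyc : (p ≠ 2 ∧ IsCyclic (commutator D)) ∨
      ∃ f : D →* D, (∀ x, f x = x ^ p ^ m) ∧ IsCyclic f.range)
    (hm : Monoid.exponent (Abelianization D) ≤ p ^ m)
    (V : FDRep ℂ G) (hV : CategoryTheory.Simple V) (hVb : InBlock O b V.character)
    (hz : padicValNat p (Module.finrank ℂ V) + padicValNat p (Nat.card D) =
      padicValNat p (Nat.card G)) {k : ℕ}
    (k1 : k ≡ 1 [MOD Nat.card G / p ^ (Nat.card G).factorization p])
    (k2 : k ≡ 1 + p ^ m [MOD p ^ (Nat.card G).factorization p]) (g : G) :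
    V.character (g ^ k) = V.character g := by
  haveI := charP hp hO
  haveI := Fact.mk hp
  obtain ⟨e, he, hbe⟩ := exists_block (br_central hp hD.1 (top_inf_eq _).symm hb.1
    (Fix_anti le_top hb.1.fix)) hD.2.1
  obtain ⟨s⟩ := exists_Src hp hO hb hD he (by
    have h := (he.2.2 _ (br_central hp hD.1 (top_inf_eq _).symm hb.1
      (Fix_anti le_top hb.1.fix))).resolve_left
    refine h fun h0 => he.2.1 ?_
    rw [← hbe, comm_of_fix he.1.fix (br_mem D b), h0])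
  have h1 : IsIrr V.character := ⟨V, hV, rfl⟩
  obtain ⟨z, h2, h3, h4⟩ := hVb
  have h5 : ev V.character s.i ∉ O.nonunits := by
    refine s.hz hb hp hO (mem_irr_top h1) ?_ (FDRep.char_one V) hz
    rw [← show red z = b from ga_ext fun g => (red_coeff z g).trans (h3 g), ← h2.eq_lf]
    exact h4
  have hc : ∀ y ∈ D, y ^ p ^ m ∈ ⁅D, D⁆ := fun y hy => pow_mem_comm hp hD.1 hm hy
  obtain ⟨f, hf, hf'⟩ : ∃ f : D →* D, (∀ x, f x = x ^ p ^ m) ∧ IsCyclic f.range := by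
    refine hcyc.elim (fun h => ?_) id
    obtain ⟨c, hc'⟩ := (Subgroup.isCyclic_iff_exists_zpowers_eq_top _).1 h.2
    have h6 := congrArg (Subgroup.map D.subtype) hc'
    rw [MonoidHom.map_zpowers, Subgroup.map_subtype_commutator] at h6
    obtain ⟨m, rfl⟩ : ∃ n, m = n + 1 := ⟨m - 1, by omega⟩
    refine ⟨MonoidHom.mk' (fun x => x ^ p ^ (m + 1)) fun x y =>
      Subtype.ext (pow_hom hp h.1 hD.1 h6 hc y.2 x.2), fun _ => rfl, ?_⟩
    haveI := h.2
    refine Subgroup.isCyclic_of_le (H' := commutator D) ?_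
    rintro _ ⟨x, rfl⟩
    have := hc x x.2
    rw [← Subgroup.map_subtype_commutator] at this
    obtain ⟨y, hy, e⟩ := this
    rwa [show y = x ^ p ^ (m + 1) from Subtype.ext e] at hy
  obtain ⟨c, hc'⟩ := (Subgroup.isCyclic_iff_exists_zpowers_eq_top _).1 hf'
  obtain ⟨x0, rfl⟩ : c ∈ f.range := hc' ▸ Subgroup.mem_zpowers c
  have hn : Nat.card G ≠ 0 := Nat.card_pos.ne'
  set a := (Nat.card G).factorization p with ha
  have hG : p ^ a * (Nat.card G / p ^ a) = Nat.card G := Nat.ordProj_mul_ordCompl_eq_self _ _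
  have hco : (p ^ a).Coprime (Nat.card G / p ^ a) := (Nat.coprime_ordCompl hp hn).pow_left a
  rcases Nat.eq_zero_or_pos a with h0 | h0
  · rw [h0, pow_zero, Nat.div_one] at k1
    rw [pow_eq_pow_iff_modEq.2 (k1.of_dvd (orderOf_dvd_natCard g)), pow_one]
  have k3 : k ≡ 1 [MOD p] := (k2.of_dvd (dvd_pow_self p h0.ne')).trans
    (by simpa using (Nat.ModEq.refl 1).add ((Nat.modEq_zero_iff_dvd).2 (dvd_pow_self p (by omega))))
  obtain ⟨n, rfl⟩ : ∃ n, k = n + 1 := by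
    refine ⟨k - 1, (Nat.sub_add_cancel (Nat.pos_of_ne_zero ?_)).symm⟩
    rintro rfl
    exact hp.one_lt.ne' (Nat.dvd_one.1 ((k3.dvd_iff dvd_rfl).1 (dvd_zero p)))
  have k4 : ∀ y ∈ D, y ^ n = y ^ p ^ m := fun y hy => by
    obtain ⟨i, hi⟩ := IsPGroup.iff_orderOf.1 hD.1 ⟨y, hy⟩
    rw [← Subgroup.orderOf_coe] at hi
    have : orderOf y ∣ p ^ a := by
      have h6 := orderOf_dvd_natCard y
      rw [show orderOf y = p ^ i from hi] at h6 ⊢
      exact pow_dvd_pow p ((hp.pow_dvd_iff_le_factorization hn).1 h6)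
    have h6 := pow_eq_pow_iff_modEq.2 (k2.of_dvd this)
    rwa [pow_succ', pow_add, pow_one, mul_right_inj] at h6
  have k5 : ∀ y : D, (y : G) ^ n = f y := fun y => by rw [k4 y y.2, hf]; rfl
  refine congrFun (fixedH (a := a) hp hO hb hD.1 s h1 h5 ?_ ?_ (fun s hs => ?_)
    (fun x hx y hy => ?_) x0.2 (fun x hx => ?_) (k4 _ x0.2 ▸ hc _ x0.2)) g
  · rw [← hG, ← Nat.modEq_and_modEq_iff_modEq_mul hco]
    refine ⟨?_, by simpa using k1.pow (p ^ a)⟩
    have := dvd_sub_pow_of_dvd_sub (R := ℤ) (p := p) (a := 1) (b := (n + 1 : ℕ))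
      (by simpa using k3.dvd) a
    rw [Nat.modEq_iff_dvd]
    push_cast
    exact (pow_dvd_pow _ a.le_succ).trans (by simpa using this)
  · exact Nat.modEq_zero_iff_dvd.1 (Nat.ModEq.add_right_cancel' 1 (by rwa [zero_add]))
  · have : orderOf s ∣ Nat.card G / p ^ a :=
      (((Nat.Prime.coprime_iff_not_dvd hp).2 hs).symm.pow_right a).dvd_of_dvd_mul_left
        (hG.symm ▸ orderOf_dvd_natCard s)
    have h6 := pow_eq_pow_iff_modEq.2 (k1.of_dvd this)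
    rwa [pow_succ, pow_one, mul_eq_right] at h6
  · rw [k5 ⟨x, hx⟩, k5 ⟨y, hy⟩, ← Subgroup.coe_mul, ← map_mul, ← k5]; rfl
  · obtain ⟨i, hi⟩ : f ⟨x, hx⟩ ∈ Subgroup.zpowers (f x0) := hc' ▸ ⟨_, rfl⟩
    rw [k5 ⟨x, hx⟩, k5, ← hi]
    exact ⟨i, by simp⟩

end Pool.Agent.P.MP_1a5b27_al.Cy
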