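import Pool.Agent.P.MP_1a5b27_al.Cy.Ph

set_option autoImplicit false
set_option linter.style.haveILetI false
set_option linter.unusedSectionVars false
set_option linter.unusedSimpArgs false

open Classical Finset Polynomial
open Pool.Agent.P.MP_ebbeae_al

namespace Pool.Agent.P.MP_1a5b27_al.Cy

variable {G : Type} [Group G] [Fintype G] {O : ValuationSubring ℂ} {p : ℕ}

theorem level {L : Subgroup G} {A : Type} [CommGroup A] (φ : L →* A) (T : G → Prop)
    (hT : ∀ g, ∀ l ∈ L, T (l * g * l⁻¹) → T g)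
    (h0 : ∀ g, T g → ∀ l : L, (l : G) * g = g * l → φ l = 1) :
    ∃ t : G → A, ∀ g, T g → ∀ l : L, t (l * g * (l : G)⁻¹) = t g * φ l := by
  let s : Setoid G := ⟨fun a b => ∃ h ∈ L, h * a * h⁻¹ = b, fun a => ⟨1, L.one_mem, by simp⟩,
    by rintro a _ ⟨h, hh, rfl⟩; exact ⟨h⁻¹, L.inv_mem hh, by simp [mul_assoc]⟩,
    by rintro a _ _ ⟨h, hh, rfl⟩ ⟨k, hk, rfl⟩; exact ⟨k * h, L.mul_mem hk hh, by simp [mul_assoc]⟩⟩
  have h1 : ∀ g, ∃ h : L, h * (Quotient.mk s g).out * (h : G)⁻¹ = g := fun g => by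
    obtain ⟨h, hh, e⟩ := Quotient.exact (Quotient.out_eq (Quotient.mk s g))
    exact ⟨⟨h, hh⟩, e⟩
  choose w hw using h1
  refine ⟨fun g => φ (w g), fun g hg l => ?_⟩
  have h2 := hw (l * g * (l : G)⁻¹)
  rw [← Quotient.sound (s := s) (a := g) ⟨l, l.2, rfl⟩] at h2
  have h3 := hw g
  generalize (Quotient.mk s g).out = g0 at h2 h3
  have h4 := h0 g0 (hT g0 _ (w g).2 (h3.symm ▸ hg)) ((l * w g)⁻¹ * w (l * g * (l : G)⁻¹)) (by
    generalize w (l * g * (l : G)⁻¹) = w' at h2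
    generalize w g = w0 at h3
    rw [← h3, mul_inv_eq_iff_eq_mul] at h2
    simp only [Subgroup.coe_mul, Subgroup.coe_inv, mul_assoc, h2]
    group)
  rw [map_mul, map_inv, inv_mul_eq_one, map_mul] at h4
  simp only
  rw [← h4, mul_comm]

/-- Green: an idempotent which is a relative trace from a normal subgroup of index `p` is an
orthogonal trace of an idempotent. -/
theorem green (hp : p.Prime) (hO : (p : O) ∈ mx O) {L : Subgroup G}
    (φ : L →* Multiplicative (ZMod p)) (c : L) (hc : φ c = Multiplicative.ofAdd 1)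
    {x : GA (kk O) G} (hx : x ∈ Fix (kk O) L) (hxx : x * x = x)
    (h0 : ∀ g, x.coeff g ≠ 0 → ∀ l : L, (l : G) * g = g * l → φ l = 1) :
    ∃ y : GA (kk O) G, y * y = y ∧ y * x = y ∧ (∀ l : L, φ l = 1 → cj (l : G) y = y) ∧
      (∀ r < p, ∀ r' < p, r ≠ r' → cj ((c : G) ^ r) y * cj ((c : G) ^ r') y = 0) ∧
      ∑ r ∈ range p, cj ((c : G) ^ r) y = x := by
  haveI := charP hp hO
  have hf : ∀ g, ∀ l ∈ L, x.coeff (l⁻¹ * g * l) = x.coeff g := fun g l hl => by
    rw [← cj_coeff, hx l hl]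
  obtain ⟨t, ht⟩ := level φ (fun g => x.coeff g ≠ 0) (fun g l hl h => by
    rwa [← hf g _ (L.inv_mem hl), inv_inv]) h0
  let ι := ZMod.castHom (dvd_refl p) (kk O)
  let m0 : GA (kk O) G := mk fun g => -ι (t g).toAdd * x.coeff g
  have h1 : ∀ l : L, cj (l : G) m0 = m0 + ι (φ l).toAdd • x := fun l => ga_ext fun g => by
    rw [cj_coeff]
    simp only [m0, mk_coeff, MonoidAlgebra.coeff_add, Finsupp.add_apply,
      MonoidAlgebra.coeff_smul_apply, smul_eq_mul, hf g l l.2]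
    by_cases hg : x.coeff g = 0
    · simp [hg]
    · have := ht g hg l⁻¹
      rw [Subgroup.coe_inv, inv_inv] at this
      rw [this, map_inv, toAdd_mul, toAdd_inv, map_add, map_neg]; ring
  obtain ⟨m, hm⟩ : ∃ m, m = x * m0 * x := ⟨_, rfl⟩
  have h2 : ∀ l : L, cj (l : G) m = m + ι (φ l).toAdd • x := fun l => by
    rw [hm, cj_mul, cj_mul, hx l l.2, h1, mul_add, add_mul, mul_smul_comm, smul_mul_assoc, hxx, hxx]
  have h3 : Commute m x := by
    rw [hm, Commute, SemiconjBy, mul_assoc, hxx, ← mul_assoc, ← mul_assoc, hxx]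
  obtain ⟨M, hM, -⟩ := exists_lift m
  obtain ⟨F, hF, hF0⟩ := isInt M
  obtain ⟨s, hs⟩ := splits F hF
  obtain ⟨H, b1, b2, b3⟩ := poly hp (s.map (res O))
  have h4 : ∀ q, ((s.map (res O)).map fun a => X - C a).prod ∣ q → aeval m q = 0 := by
    rintro _ ⟨q, rfl⟩
    have : ((s.map (res O)).map fun a => X - C a).prod = F.map (res O) := by
      rw [hs, Polynomial.map_multiset_prod]; simp
    rw [map_mul, this, ← hM, ← red_aeval, aeval_def, hF0, map_zero, zero_mul]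
  have h5 : ∀ l : L, cj (l : G) (aeval m H * x) = aeval m (H.comp (X + C (ι (φ l).toAdd))) * x := by
    intro l
    rw [cj_mul, hx l l.2, ← cjH_apply, ← aeval_algHom_apply, cjH_apply, h2, aeval_comp,
      (comm_aeval (h3.add_left ((Commute.refl x).smul_left _)) H).eq]
    refine (aeval_semi ?_ H).symm
    rw [map_add, aeval_X, aeval_C, add_mul, mul_add, h3.eq, ← Algebra.smul_def, mul_smul_comm, hxx]
  have h6 : ∀ q q' : (kk O)[X], aeval m q * x * (aeval m q' * x) = aeval m (q * q') * x := by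
    intro q q'
    rw [mul_assoc, ← mul_assoc x, ← (comm_aeval h3 q').eq, mul_assoc, hxx, ← mul_assoc, map_mul]
  have h7 : ∀ r : ℕ, cj ((c : G) ^ r) (aeval m H * x) = aeval m (H.comp (X + C (r : kk O))) * x := by
    intro r
    rw [← Subgroup.coe_pow, h5, map_pow, hc]; simp
  refine ⟨aeval m H * x, ?_, by rw [mul_assoc, hxx], fun l hl => ?_, fun r hr r' hr' h => ?_, ?_⟩
  · rw [h6, ← sub_eq_zero, ← sub_mul, ← map_sub, h4 _ b1, zero_mul]
  · rw [h5, hl]; simp
  · rw [h7, h7, h6, h4 _ (b2 r hr r' hr' h), zero_mul]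
  · simp only [h7]
    have := h4 _ b3
    rw [map_sub, map_one, sub_eq_zero] at this
    rw [← Finset.sum_mul, ← map_sum, this, one_mul]

theorem exists_hom (hp : p.Prime) {L Q : Subgroup G} (hL : IsPGroup p L) (h : Q < L) :
    ∃ φ : L →* Multiplicative (ZMod p), (∃ c, φ c = Multiplicative.ofAdd 1) ∧
      ∀ l : L, (l : G) ∈ Q → φ l = 1 := by
  haveI := Fact.mk hp
  obtain ⟨n, hn⟩ := hL.exists_card_eq
  obtain ⟨a, ha⟩ := (hL.to_subgroup (Q.subgroupOf L)).exists_card_eq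
  have h1 : a < n := by
    by_contra h1
    have := Subgroup.eq_top_of_le_card (Q.subgroupOf L) (by
      rw [ha, hn]; exact Nat.pow_le_pow_right hp.pos (by omega))
    exact h.not_ge (Subgroup.subgroupOf_eq_top.1 this)
  obtain ⟨n, rfl⟩ : ∃ m, n = m + 1 := ⟨n - 1, by omega⟩
  obtain ⟨K, hK, hQK⟩ := Sylow.exists_subgroup_card_pow_prime_le p (m := n)
    (hn ▸ pow_dvd_pow p n.le_succ) _ ha (by omega)
  have h2 : K.index = p := by
    have := K.card_mul_index
    rw [hK, hn, pow_succ] at this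
    exact Nat.eq_of_mul_eq_mul_left (pow_pos hp.pos n) this
  haveI : K.Normal := Subgroup.normal_of_index_eq_minFac_card (by
    rw [h2, hn, hp.pow_minFac n.succ_ne_zero])
  let e : L ⧸ K ≃* Multiplicative (ZMod p) := mulEquivOfPrimeCardEq (p := p) h2 (by simp)
  refine ⟨e.toMonoidHom.comp (QuotientGroup.mk' K),
    (e.surjective.comp (QuotientGroup.mk'_surjective K)) _, fun l hl => ?_⟩
  rw [MonoidHom.comp_apply, QuotientGroup.mk'_apply, (QuotientGroup.eq_one_iff l).2 (hQK hl),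
    map_one]

/-- Splitting an idempotent along a sum of two ideals. -/
theorem split {L : Subgroup G} {x z : GA (kk O) G} (hx : x ∈ Fix (kk O) L) (hxx : x * x = x)
    (hz : z ∈ Fix (kk O) L) : ∃ ε ∈ Fix (kk O) L, ε * ε = ε ∧ x * ε = ε ∧ ε * x = ε ∧
      (∃ w ∈ Fix (kk O) L, ε = x * z * w) ∧
      ∃ w ∈ Fix (kk O) L, ∃ w' ∈ Fix (kk O) L, x - ε = w * (x - z) * w' := by
  obtain ⟨a, ha⟩ : ∃ a, a = x * z * x := ⟨_, rfl⟩
  have haF : a ∈ Fix (kk O) L := ha ▸ mul_mem (mul_mem hx hz) hx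
  obtain ⟨A, hA, -, h1⟩ := exists_lift a
  have hAF : A ∈ Fix O L := fun g hg => h1 g (haF g hg)
  obtain ⟨r, n, h⟩ := fit2 A A
  obtain ⟨h4, h5⟩ := h A (Or.inl rfl)
  obtain ⟨w, hw⟩ : ∃ w, w = red (aeval A r) := ⟨_, rfl⟩
  have hwF : w ∈ Fix (kk O) L := hw ▸ red_Fix (aeval_mem hAF r)
  have h2 : w * a = a * w := by
    rw [hw, ← hA, ← map_mul, ← map_mul, (comm_aeval (Commute.refl A) r).eq]
  replace h4 := congrArg red h4
  simp only [map_mul, map_pow, map_sub, map_one, hA, ← hw] at h4 h5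
  have xa : x * a = a := by rw [ha, ← mul_assoc, ← mul_assoc, hxx]
  have ax : a * x = a := by rw [ha, mul_assoc, hxx]
  have h6 : x * (a * w) = a * w := by rw [← mul_assoc, xa]
  have h7 : a * w * x = a * w := by rw [← h2, mul_assoc, ax]
  have hc : Commute (x - a * w) a := by
    rw [Commute, SemiconjBy, sub_mul, mul_sub, xa, ax, mul_assoc, h2]
  have hcc : (x - a * w) * (x - a * w) = x - a * w := by
    rw [sub_mul, mul_sub, mul_sub, hxx, h6, h7, h4, sub_self, sub_zero]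
  have hcF : x - a * w ∈ Fix (kk O) L := sub_mem hx (mul_mem haF hwF)
  have h8 : ((x - a * w) * a) ^ (n + 1) = 0 := by
    rw [hc.mul_pow, idem_pow hcc, (hc.pow_right _).eq, mul_sub, pow_succ, mul_assoc _ a x, ax,
      ← pow_succ, ← h5, mul_sub, mul_one]
  refine ⟨a * w, mul_mem haF hwF, h4, h6, h7, ⟨x * w, mul_mem hx hwF, by rw [← mul_assoc, ← ha]⟩,
    (x - a * w) * x, mul_mem hcF hx, x * ∑ i ∈ range (n + 1), ((x - a * w) * a) ^ i,
    mul_mem hx (sum_mem fun i _ => pow_mem (mul_mem hcF haF) i), ?_⟩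
  have h9 := mul_neg_geom_sum ((x - a * w) * a) (n + 1)
  rw [h8, sub_zero] at h9
  have h10 : (x - a * w) * x * (x - z) * x = (x - a * w) * (1 - (x - a * w) * a) := by
    have h11 : x * (x - z) * x = x - a := by rw [mul_sub, hxx, sub_mul, hxx, ha]
    rw [mul_one_sub, ← mul_assoc, hcc, mul_assoc _ x, mul_assoc _ _ x, h11, mul_sub,
      sub_mul x _ x, hxx, h7]
  rw [← mul_assoc, h10, mul_assoc, h9, mul_one]

theorem br_ne (hp : p.Prime) (hO : (p : O) ∈ mx O) {L Q : Subgroup G} (hL : IsPGroup p L)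
    (hQ : Q ≤ L) {w z w' : GA (kk O) G} (hw : w ∈ Fix (kk O) L) (hz : z ∈ Fix (kk O) L)
    (hw' : w' ∈ Fix (kk O) L) (h : br Q (w * z * w') ≠ 0) : br Q z ≠ 0 := fun h0 => h (by
  haveI := charP hp hO
  rw [br_mul hp (hL.to_le hQ) (Fix_anti hQ (mul_mem hw hz)) (Fix_anti hQ hw'),
    br_mul hp (hL.to_le hQ) (Fix_anti hQ hw) (Fix_anti hQ hz), h0, mul_zero, zero_mul])

theorem br_ne_iff {Q : Subgroup G} {z : GA (kk O) G} :
    br Q z ≠ 0 ↔ ∃ g ∈ CC Q, z.coeff g ≠ 0 := by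
  constructor
  · contrapose!
    exact fun h => ga_ext fun g => by
      rw [br_coeff]; split_ifs with hg
      · exact h g hg
      · rfl
  · rintro ⟨g, hg, h⟩ h0
    have := br_coeff Q z g
    rw [h0, if_pos hg] at this
    exact h this.symm

theorem induce (hp : p.Prime) (hO : (p : O) ∈ mx O) {χ : G → ℂ} (hχ : CharOn ⊤ χ) {Λ : G → ℂ}
    {L : Subgroup G} (hL : IsPGroup p L) (hΛ : ClassOn L Λ)
    (φ : L →* Multiplicative (ZMod p)) (c : L) (hc : φ c = Multiplicative.ofAdd 1)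
    {x : GA (kk O) G} (hx : x ∈ Fix (kk O) L) (hxx : x * x = x)
    (h0 : ∀ Q ≤ L, br Q x ≠ 0 → ∀ l : L, (l : G) ∈ Q → φ l = 1)
    (ih : ∀ L1 < L, ∀ y ∈ Fix (kk O) L1, y * y = y → y * x = y →
      RR O L1 fun u => Λ u * Ph χ y u) : RR O L fun u => Λ u * Ph χ x u := by
  haveI := Fact.mk hp
  obtain ⟨y, yy, yx, y1, y2, y3⟩ := green hp hO φ c hc hx hxx fun g hg l hl =>
    h0 (Subgroup.zpowers (l : G)) (Subgroup.zpowers_le.2 l.2)
      (br_ne_iff.2 ⟨g, mem_CC_zpowers.2 hl, hg⟩) l (Subgroup.mem_zpowers _)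
  set L1 := φ.ker.map L.subtype with hL1
  have m1 : ∀ l : L, (l : G) ∈ L1 ↔ φ l = 1 := fun l =>
    ⟨fun ⟨l', h1, h2⟩ => (show l' = l from Subtype.ext h2) ▸ h1, fun h => ⟨l, h, rfl⟩⟩
  have hle : L1 ≤ L := Subgroup.map_subtype_le _
  have hlt : L1 < L := lt_of_le_of_ne hle fun e => by
    have := (m1 c).1 (e.symm ▸ c.2)
    rw [hc] at this
    exact one_ne_zero (α := ZMod p) this
  have hy : y ∈ Fix (kk O) L1 := fun u hu => y1 ⟨u, hle hu⟩ ((m1 ⟨u, hle hu⟩).1 hu)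
  have hn : ∀ a ∈ L, ∀ u, a * u * a⁻¹ ∈ L1 ↔ u ∈ L1 := fun a ha u => by
    by_cases hu : u ∈ L
    · have := m1 (⟨a, ha⟩ * ⟨u, hu⟩ * ⟨a, ha⟩⁻¹)
      rw [map_mul, map_mul, map_inv, mul_inv_cancel_comm, ← m1] at this
      exact this
    · refine iff_of_false (fun h => hu ?_) fun h => hu (hle h)
      simpa [L.mul_mem_cancel_left ha, L.mul_mem_cancel_right (L.inv_mem ha)] using hle h
  have hcard : Nat.card L = p * Nat.card L1 := by
    rw [hL1, Subgroup.card_subtype, ← φ.ker.index_mul_card, Subgroup.index_ker]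
    congr 1
    rw [MonoidHom.range_eq_top.2, Subgroup.card_top]
    · simp
    · intro t
      refine ⟨c ^ t.toAdd.val, ?_⟩
      rw [map_pow, hc, ← ofAdd_nsmul]; simp
  refine ⟨fun a ha u hu => by simp only [hΛ a ha u hu, (Ph_char hχ hx hxx).cls a ha u hu],
    fun τ hτ => ?_⟩
  have h1 := (ih L1 hlt y hy yy yx).ip_char ((irr_char hτ).mono hle)
  have h2 : ∀ r ∈ range p, ∑ u ∈ el L1, Λ u * Ph χ (cj ((c : G) ^ r) y) u * τ u⁻¹ =
      ∑ u ∈ el L1, Λ u * Ph χ y u * τ u⁻¹ := by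
    intro r _
    have ha := pow_mem c.2 r
    refine (Finset.sum_equiv (MulAut.conj ((c : G) ^ r)).toEquiv (fun u => ?_) fun u hu => ?_).symm
    · rw [mem_el, mem_el]; exact (hn _ ha u).symm
    · have hu := mem_el.1 hu
      change _ = Λ (_ * u * _) * Ph χ _ (_ * u * _) * τ (_ * u * _)⁻¹
      rw [hΛ _ ha u (hle hu), Ph_cj hp hO hχ.cls (PE_of_mem hL (hle hu)) yy (hy u hu),
        ← irr_cls hτ _ ha _ (L.inv_mem (hle hu)), conj_inv]
  have h3 : ∑ u ∈ el L, Λ u * Ph χ x u * τ u⁻¹ = p * ∑ u ∈ el L1, Λ u * Ph χ y u * τ u⁻¹ := by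
    rw [sum_split L1 L hle, Finset.sum_eq_zero (s := filter _ _), add_zero, ← nsmul_eq_mul]
    · conv_rhs => rw [← card_range p, ← sum_const, ← Finset.sum_congr rfl h2, Finset.sum_comm]
      refine Finset.sum_congr rfl fun u hu => ?_
      have hu := mem_el.1 hu
      rw [← y3, Ph_sum hp hO hχ.cls (PE_of_mem hL (hle hu)) p _ (fun r => by rw [← cj_mul, yy]) y2,
        Finset.mul_sum, Finset.sum_mul]
      intro r
      have := hy _ ((hn _ (L.inv_mem (pow_mem c.2 r)) u).2 hu)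
      conv_rhs => rw [← this]
      rw [cj_cj, cj_cj]; simp [mul_assoc]
    · intro u hu
      obtain ⟨hu, hu'⟩ := mem_filter.1 hu
      have hu := mem_el.1 hu
      rw [Ph_zero hp hO hχ.cls (PE_of_mem hL hu) hxx (hx u hu), mul_zero, zero_mul]
      by_contra h
      exact hu' ((m1 ⟨u, hu⟩).2 (h0 _ (Subgroup.zpowers_le.2 hu) h _ (Subgroup.mem_zpowers u)))
  rw [ipo] at h1 ⊢
  rwa [h3, hcard, Nat.cast_mul, mul_inv, mul_mul_mul_comm, inv_mul_cancel₀
    (by exact_mod_cast hp.ne_zero), one_mul]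

/-- Twisting the character cut out by an idempotent by a function which is a virtual character on
all vertices. -/
theorem star (hp : p.Prime) (hO : (p : O) ∈ mx O) {χ : G → ℂ} (hχ : CharOn ⊤ χ) {Λ : G → ℂ}
    (L : Subgroup G) (hL : IsPGroup p L) (hΛ : ClassOn L Λ) (x : GA (kk O) G)
    (hx : x ∈ Fix (kk O) L) (hxx : x * x = x) (h0 : ∀ Q ≤ L, br Q x ≠ 0 → RR O Q Λ) :
    RR O L fun u => Λ u * Ph χ x u := by
  haveI := Fact.mk hp
  induction L using WellFoundedLT.induction generalizing x with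
  | _ L ih =>
  by_cases hb : br L x ≠ 0
  · exact (h0 L le_rfl hb).mul (Ph_char hχ hx hxx).rr
  have key : ∀ S : Finset (L →* Multiplicative (ZMod p)),
      (∀ φ ∈ S, ∃ c, φ c = Multiplicative.ofAdd 1) → ∀ x ∈ Fix (kk O) L, x * x = x →
      (∀ Q ≤ L, br Q x ≠ 0 → RR O Q Λ) →
      (∀ Q ≤ L, br Q x ≠ 0 → ∃ φ ∈ S, ∀ l : L, (l : G) ∈ Q → φ l = 1) →
      RR O L fun u => Λ u * Ph χ x u := by
    intro S
    induction S using Finset.induction_on with
    | empty =>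
      intro _ x hx hxx _ h1
      refine (RR.const L O.zero_mem).congr fun u hu => ?_
      rw [Ph_zero hp hO hχ.cls (PE_of_mem hL hu) hxx (hx u hu), mul_zero]
      by_contra h
      simpa using h1 _ (Subgroup.zpowers_le.2 hu) h
    | insert φ S _ ihS =>
      intro hS x hx hxx h0 h1
      let T : G → Prop := fun g => ∀ l : L, (l : G) * g = g * l → φ l = 1
      let z : GA (kk O) G := mk fun g => if T g then x.coeff g else 0
      have hT : ∀ a ∈ L, ∀ g, T g → T (a⁻¹ * g * a) := fun a ha g hg l hl => by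
        have := hg (⟨a, ha⟩ * l * ⟨a, ha⟩⁻¹) (by
          simpa [mul_assoc] using congrArg (fun t => a * t * a⁻¹) hl)
        rwa [map_mul, map_mul, map_inv, mul_inv_cancel_comm] at this
      have hz : z ∈ Fix (kk O) L := fun a ha => ga_ext fun g => by
        rw [cj_coeff]
        simp only [z, mk_coeff]
        rw [← cj_coeff, hx a ha]
        exact if_congr ⟨fun h => by simpa [mul_assoc] using hT _ (L.inv_mem ha) _ h,
          hT a ha g⟩ rfl rfl
      obtain ⟨ε, e1, e2, e3, e4, ⟨w, hw, e5⟩, w1, hw1, w2, hw2, e6⟩ := split hx hxx hz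
      obtain ⟨c, hc⟩ := hS φ (mem_insert_self _ _)
      have f2 : (x - ε) * (x - ε) = x - ε := by
        rw [sub_mul, mul_sub, mul_sub, hxx, e3, e4, e2, sub_self, sub_zero]
      have r1 := induce hp hO hχ hL hΛ φ c hc e1 e2 (fun Q hQ h l hl => by
        obtain ⟨g, hg, h2⟩ := br_ne_iff.1 (br_ne hp hO hL hQ hx hz hw (e5 ▸ h))
        have : T g := by
          by_contra h3
          exact h2 (by simp [z, h3])
        exact this l (mem_CC.1 hg _ hl)) fun L1 h1 y hy yy yx =>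
          ih L1 h1 (hL.to_le h1.le) (hΛ.mono h1.le) y hy yy fun Q hQ h => h0 Q (hQ.trans h1.le)
            (br_ne hp hO (hL.to_le h1.le) hQ hy (Fix_anti h1.le hx) (Fix_anti h1.le e1)
              (by rwa [mul_assoc, e3, yx]))
      have r2 := ihS (fun ψ h => hS ψ (mem_insert_of_mem h)) (x - ε) (sub_mem hx e1) f2
        (fun Q hQ h => h0 Q hQ (br_ne hp hO hL hQ (one_mem _) hx (sub_mem hx e1)
          (by rwa [one_mul, mul_sub, hxx, e3]))) fun Q hQ h => by
          obtain ⟨g, hg, h2⟩ := br_ne_iff.1 (br_ne hp hO hL hQ hw1 (sub_mem hx hz) hw2 (e6 ▸ h))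
          have h3 : ¬ T g ∧ x.coeff g ≠ 0 := by
            by_cases h3 : T g <;> simp [z, h3] at h2 ⊢
            exact h2
          obtain ⟨ψ, h4, h5⟩ := h1 (L ⊓ CC (Subgroup.zpowers g)) inf_le_left (br_ne_iff.2
            ⟨g, mem_CC.2 fun q hq => (mem_CC_zpowers.1 hq.2).symm, h3.2⟩)
          refine ⟨ψ, (mem_insert.1 h4).resolve_left fun e => h3.1 fun l hl => ?_, fun l hl =>
            h5 l ⟨l.2, mem_CC_zpowers.2 (mem_CC.1 hg _ hl).symm⟩⟩
          exact e ▸ h5 l ⟨l.2, mem_CC_zpowers.2 hl.symm⟩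
      refine (r1.lin r2 O.one_mem O.one_mem).congr fun u hu => ?_
      rw [one_mul, one_mul, ← mul_add, ← Ph_add hp hO hχ.cls (PE_of_mem hL hu) e2 f2
        (by rw [mul_sub, e4, e2, sub_self]) (by rw [sub_mul, e3, e2, sub_self]) (e1 u hu)
        (sub_mem hx e1 u hu), add_sub_cancel]
  haveI : Finite (L →* Multiplicative (ZMod p)) := DFunLike.finite _
  haveI := Fintype.ofFinite (L →* Multiplicative (ZMod p))
  refine key (univ.filter fun φ => ∃ c, φ c = Multiplicative.ofAdd 1)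
    (fun φ h => (mem_filter.1 h).2) x hx hxx h0 fun Q hQ h => ?_
  obtain ⟨φ, h1, h2⟩ := exists_hom hp hL (lt_of_le_of_ne hQ fun e => hb (e ▸ h))
  exact ⟨φ, mem_filter.2 ⟨mem_univ _, h1⟩, h2⟩

end Pool.Agent.P.MP_1a5b27_al.Cy
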