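import Pool.Agent.P.MP_1a5b27_al.Cy.Gr

set_option autoImplicit false
set_option linter.style.haveILetI false
set_option linter.unusedSectionVars false
set_option linter.unusedSimpArgs false

open Classical Finset Polynomial
open Pool.Agent.P.MP_ebbeae_al

namespace Pool.Agent.P.MP_1a5b27_al.Cy

variable {G : Type} [Group G] [Fintype G] {O : ValuationSubring ℂ} {p : ℕ}

theorem fib (A B : G → Prop) (hA : ∀ g u, A (g * u * g⁻¹) ↔ A u) (hB : ∀ g u, B (g * u * g⁻¹) ↔ B u)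
    (hex : ∀ g, ∃ u s, A u ∧ B s ∧ g = u * s ∧ u * s = s * u ∧ u ∈ Subgroup.zpowers g)
    (hun : ∀ u s u' s', A u → B s → A u' → B s' → u * s = s * u → u' * s' = s' * u' →
      u * s = u' * s' → u = u') {K : Subgroup G} {Ψ : G → ℂ} (hΨ : ClassOn K Ψ)
    (h : ∀ u ∈ K, A u → (Nat.card (K ⊓ CC (Subgroup.zpowers u) : Subgroup G) : ℂ)⁻¹ *
      ∑ s ∈ (el (K ⊓ CC (Subgroup.zpowers u))).filter B, Ψ (u * s) ∈ O) :
    (Nat.card K : ℂ)⁻¹ * ∑ g ∈ el K, Ψ g ∈ O := by
  choose w t hw ht hwt hc h1 using hex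
  let Φ : G → ℂ := fun u => if A u then
    ∑ s ∈ (el (K ⊓ CC (Subgroup.zpowers u))).filter B, Ψ (u * s) else 0
  have e : ∑ g ∈ el K, Ψ g = ∑ u ∈ el K, Φ u := by
    rw [← Finset.sum_fiberwise_of_maps_to (t := el K) (g := w)
      fun s hs => mem_el.2 (Subgroup.zpowers_le.2 (mem_el.1 hs) (h1 s))]
    refine Finset.sum_congr rfl fun u hu => ?_
    have hu := mem_el.1 hu
    simp only [Φ]
    split_ifs with h
    · symm
      refine Finset.sum_bij (fun y _ => u * y) (fun y hy => ?_) (fun a _ b _ e => mul_left_cancel e)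
        (fun g hg => ⟨t g, ?_, ?_⟩) fun _ _ => rfl
      · obtain ⟨hy1, hy2⟩ := mem_filter.1 hy
        have hy1 := Subgroup.mem_inf.1 (mem_el.1 hy1)
        exact mem_filter.2 ⟨mem_el.2 (K.mul_mem hu hy1.1), hun _ _ _ _ (hw _) (ht _) h hy2 (hc _)
          (mem_CC_zpowers.1 hy1.2) (hwt _).symm⟩
      · obtain ⟨hg1, rfl⟩ := mem_filter.1 hg
        refine mem_filter.2 ⟨mem_el.2 ⟨?_, mem_CC_zpowers.2 (hc g)⟩, ht g⟩
        have := K.mul_mem (K.inv_mem hu) (mem_el.1 hg1)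
        rwa [inv_mul_eq_iff_eq_mul.2 (hwt g)] at this
      · rw [← (mem_filter.1 hg).2, ← hwt g]
    · refine Finset.sum_eq_zero fun s hs => absurd ?_ h
      obtain ⟨-, rfl⟩ := mem_filter.1 hs
      exact hw s
  rw [e]
  refine sum_class (fun a ha u hu => ?_) fun u hu => ?_
  · simp only [Φ, hA]
    split_ifs
    swap
    · rfl
    symm
    refine Finset.sum_equiv (MulAut.conj a).toEquiv (fun y => ?_) fun y hy => ?_
    · rw [mem_filter, mem_filter, mem_el, mem_el, ← cs_zpowers, ← cs_CC, Subgroup.mem_inf,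
        Subgroup.mem_inf]
      change _ ↔ (a * y * a⁻¹ ∈ K ∧ a * y * a⁻¹ ∈ _) ∧ B (a * y * a⁻¹)
      rw [conj_mem_cs, K.mul_mem_cancel_right (K.inv_mem ha), K.mul_mem_cancel_left ha, hB]
    · change _ = Ψ (a * u * a⁻¹ * (a * y * a⁻¹))
      rw [← hΨ a ha _ (K.mul_mem hu (mem_el.1 (mem_filter.1 hy).1).1)]
      simp [mul_assoc]
  · simp only [Φ]
    split_ifs with h1
    · exact h u hu h1
    · simp

theorem rr_mono {H L : Subgroup G} {f : G → ℂ} (hf : RR O H f) (hL : L ≤ H) : RR O L f :=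
  (RR.sum (irr H) (ipo H f) (fun ψ => ψ) hf.2 fun _ hψ => ((irr_char hψ).mono hL).rr).congr
    fun _ hx => (hf.1.expand (hL hx)).symm

theorem rr_inv {L : Subgroup G} {f : G → ℂ} (hf : RR O L f) (h : ∀ y ∈ L, f y ∉ O.nonunits) :
    RR O L fun y => (f y)⁻¹ := by
  have key : ∀ W : Finset G, (∀ y ∈ W, y ∈ L) → ∃ ρ, RR O L ρ ∧ ∀ y ∈ W, f y * ρ y = 1 := by
    intro W
    induction W using Finset.induction_on with
    | empty => exact fun _ => ⟨f, hf, by simp⟩
    | insert w W _ ih =>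
      intro hW
      obtain ⟨ρ, h1, h2⟩ := ih fun y hy => hW y (mem_insert_of_mem hy)
      have hw := h w (hW w (mem_insert_self _ _))
      refine ⟨_, h1.lin ((RR.const L O.one_mem).lin (hf.mul h1) O.one_mem (neg_mem O.one_mem))
        O.one_mem (inv_mem_of_not_nu hw), fun y hy => ?_⟩
      rcases mem_insert.1 hy with rfl | hy
      · have := ne_zero_of_not_nu hw
        field_simp; ring
      · simp [h2 y hy]
  obtain ⟨ρ, h1, h2⟩ := key (el L) fun _ => mem_el.1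
  exact h1.congr fun y hy => eq_inv_of_mul_eq_one_right (h2 y (mem_el.2 hy))

theorem recip {H L : Subgroup G} (hL : L ≤ H) {F : G → ℂ} (hF : ClassOn H F) :
    (Nat.card H : ℂ)⁻¹ * ∑ y ∈ el H, ((Nat.card L : ℂ)⁻¹ *
      ∑ h ∈ el H, if h⁻¹ * y * h ∈ L then 1 else 0) * F y =
      (Nat.card L : ℂ)⁻¹ * ∑ l ∈ el L, F l := by
  simp only [mul_assoc, ← Finset.mul_sum, Finset.sum_mul]
  rw [Finset.sum_comm, Finset.sum_congr rfl (g := fun _ => ∑ l ∈ el L, F l), sum_const,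
    card_el, nsmul_eq_mul, mul_left_comm, inv_mul_cancel_left₀ (card_ne' H)]
  intro h hh
  have hh := mem_el.1 hh
  rw [← sum_el_mul hh (H.inv_mem hh), ← Finset.sum_subset (s₁ := el L)
    fun x hx => mem_el.2 (hL (mem_el.1 hx))]
  · refine Finset.sum_congr rfl fun l hl => ?_
    rw [hF h hh _ (hL (mem_el.1 hl))]
    simp [mul_assoc, mem_el.1 hl]
  · intro x _ hx
    have : x ∉ L := by simpa using hx
    simp [mul_assoc, this]

theorem PE_conj {g u : G} : PE p (g * u * g⁻¹) ↔ PE p u :=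
  ⟨fun h => by simpa [mul_assoc] using h.conj g⁻¹, fun h => h.conj g⟩

theorem sylow (hp : p.Prime) (hO : (p : O) ∈ mx O) {H : Subgroup G} {Ψ : G → ℂ} (hΨ : ClassOn H Ψ)
    (h : ∀ L ≤ H, IsPGroup p L → RR O L Ψ) :
    (Nat.card H : ℂ)⁻¹ * ∑ u ∈ (el H).filter (PE p), Ψ u ∈ O := by
  obtain ⟨L, -, hLH, hL, m, hm, hcard⟩ := exists_syl hp (bot_le (a := H)) IsPGroup.of_bot
  let π : G → ℂ := fun y => (Nat.card L : ℂ)⁻¹ * ∑ h ∈ el H, if h⁻¹ * y * h ∈ L then 1 else 0
  have hπ : RR O H π := by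
    refine ⟨fun a ha y _ => ?_, fun ψ hψ => ?_⟩
    · simp only [π]
      rw [← sum_el_mul ha H.one_mem]
      simp [mul_assoc]
    · obtain ⟨n, hn⟩ := (charOn_one L).ip_nat ((irr_char hψ).mono hLH)
      rw [ipo, recip hLH (irr_char hψ).inv.cls]
      simp only [ipo, Pi.one_apply, one_mul] at hn
      rw [hn]; exact natCast_mem O n
  have h1 : π 1 ∉ O.nonunits := by
    have : π 1 = m := by
      simp only [π, mul_one, inv_mul_cancel, L.one_mem, if_true, sum_const, card_el, nsmul_eq_mul]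
      rw [hcard, Nat.cast_mul, inv_mul_cancel_left₀ (card_ne' L)]
    rwa [this, nat_nu hp hO]
  have h2 : ∀ w ∈ H, PE p w → π w ∉ O.nonunits :=
    fun w hw hpw => not_nu_of_sub (hπ.cong hp hO hw hpw) h1
  have h3 := ((h L hLH hL).mul (rr_inv (rr_mono hπ hLH) fun y hy =>
    h2 y (hLH hy) (PE_of_mem hL hy))).avg
  have h4 := recip hLH (F := fun y => if PE p y then Ψ y * (π y)⁻¹ else 0) fun a ha y hy => by
    simp only [PE_conj, hΨ a ha y hy, hπ.1 a ha y hy]
  rw [Finset.sum_congr rfl fun l hl => if_pos (PE_of_mem hL (mem_el.1 hl))] at h4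
  rw [← h4] at h3
  rw [Finset.sum_filter, Finset.sum_congr rfl]
  · exact h3
  intro y hy
  change _ = π y * _
  split_ifs with h5
  · have := ne_zero_of_not_nu (h2 y (mem_el.1 hy) h5)
    field_simp
  · simp

theorem frobR (hp : p.Prime) {l : ℕ} (hl : l.Prime) (hlp : l ≠ p) (hO : (l : O) ∈ mx O)
    {H : Subgroup G} {f : G → ℂ} (hf : RR O H f) :
    (Nat.card H : ℂ)⁻¹ * ∑ s ∈ rg p H, f s ∈ O := by
  rw [Finset.sum_congr rfl fun s hs => hf.1.expand (mem_rg.1 hs).1, Finset.sum_comm, Finset.mul_sum]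
  refine sum_mem fun ψ hψ => ?_
  rw [← Finset.mul_sum, mul_left_comm]
  exact mul_mem (hf.2 ψ hψ) (frob hp hl hlp hO (irr_char hψ))

/-- The twisted restriction is a virtual character. -/
theorem twist_int (hp : p.Prime) (hO : (p : O) ∈ mx O) {χ : G → ℂ} (hχ : CharOn ⊤ χ)
    {β : GA (kk O) G} (hβ : IsCentralIdem ⊤ β) (hχβ : ∀ a, ev χ (lf β * a) = ev χ a)
    {K : Subgroup G} {Λ : G → ℂ} (hΛ : ClassOn K Λ)
    (h1 : ∀ Q ≤ K, IsPGroup p Q → br Q β ≠ 0 → CharOn Q Λ)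
    (h2 : ∀ u s, preg p s → u * s = s * u → Λ (u * s) = Λ u)
    (h3 : ∀ g, Λ g ^ Nat.card G = 1) (h4 : ∀ g r, r.Coprime (Nat.card G) → Λ (g ^ r) = Λ g ^ r)
    {θ : G → ℂ} (hθ : θ ∈ irr K) : ∃ n : ℤ, ipo K (fun g => Λ g * χ g) θ = n := by
  have hn : 0 < Nat.card G := Nat.card_pos
  have hκ : CharOn K fun g => χ g * θ g⁻¹ := (hχ.mono le_top).mul (irr_char hθ).inv
  have hΨ : ClassOn K fun g => Λ g * (χ g * θ g⁻¹) := fun a ha y hy => by
    have := hκ.cls a ha y hy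
    simp only at this ⊢
    rw [this, hΛ a ha y hy]
  have e : ipo K (fun g => Λ g * χ g) θ =
      (Nat.card K : ℂ)⁻¹ * ∑ g ∈ el K, Λ g * (χ g * θ g⁻¹) := by simp only [ipo, mul_assoc]
  have hζ := Complex.isPrimitiveRoot_exp _ hn.ne'
  haveI : NeZero (Nat.card G) := ⟨hn.ne'⟩
  obtain ⟨q, hq⟩ : ∃ q : ℚ, (q : ℂ) = ipo K (fun g => Λ g * χ g) θ := by
    have := mem_adjoin_of_fixed hn hζ ∅ (by simp) (x := ipo K (fun g => Λ g * χ g) θ) (by
      rw [e]
      refine mul_mem (inv_mem (natCast_mem _ _)) (sum_mem fun g hg => mul_mem ?_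
        (hκ.mem_field hn hζ (mem_el.1 hg) pow_card_eq_one'))
      obtain ⟨i, -, hi⟩ := hζ.eq_pow_of_pow_eq_one (h3 g)
      exact hi ▸ pow_mem (IntermediateField.mem_adjoin_simple_self ℚ _) i) fun φ _ => by
        obtain ⟨r, hr, hφ⟩ := exists_pow_of_hom hn hζ φ
        rw [e, map_mul, map_inv₀, map_natCast, map_sum, ← sum_inj (W := el K) (· ^ r)
          (fun v hv => mem_el.2 (pow_mem (mem_el.1 hv) r))
          (fun v _ w _ h => hr.symm.pow_left_bijective.1 h) fun g => Λ g * (χ g * θ g⁻¹)]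
        congr 1
        refine Finset.sum_congr rfl fun g hg => ?_
        rw [map_mul, hκ.map_pow hn hζ (mem_el.1 hg) pow_card_eq_one' hφ, h4 g r hr]
        obtain ⟨i, -, hi⟩ := hζ.eq_pow_of_pow_eq_one (h3 g)
        rw [← hi, map_pow, hφ, pow_right_comm]
    rw [IntermediateField.adjoin_empty, IntermediateField.mem_bot] at this
    exact this
  obtain ⟨n, hn'⟩ := int_of_all (q := q) fun l hl => by
    rw [hq, e]
    by_cases hlp : l = p
    · subst hlp
      refine ⟨O, hO, fib (preg l) (PE l) (fun _ _ => preg_conj) (fun _ _ => PE_conj) (fun g => ?_)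
        (fun s u s' u' a b c d e f g => ?_) hΨ fun s hs hps => ?_⟩
      · obtain ⟨w, s, a, b, c, d, -, f⟩ := decomp hp g
        exact ⟨s, w, b, a, c.trans d, d.symm, f⟩
      · have := pe_unique hp b a d c e.symm f.symm (e.symm.trans (g.trans f))
        subst this
        exact mul_right_cancel g
      refine sylow hp hO (hΨ.shift hs) fun L hL hLp => ?_
      have hc : ∀ u ∈ L, u * s = s * u := fun u hu => (mem_CC_zpowers.1 (hL hu).2).symm
      have hK : L ≤ K := hL.trans inf_le_left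
      obtain ⟨n, c, E, a1, a2, a3⟩ := exists_eig hp hO hps
      have a4 : ∀ i, E i * lf β ∈ Fix O L := fun i =>
        mul_mem (fun u hu => cj_of_comm (hc u hu) (a2 i)) (Fix_anti le_top hβ.lf.fix)
      have a5 : ∀ i, E i * lf β * (E i * lf β) = E i * lf β := fun i => by
        rw [mul_assoc, ← mul_assoc (lf β), comm_of_fix hβ.lf.fix (mem_Sup_top (E i)), mul_assoc,
          hβ.lf.2.2, ← mul_assoc, a1]
      refine ((RR.sum (range n) (fun i => (c i : ℂ)) _ (fun i _ => (c i).2) fun i _ =>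
        star hp hO hχ L hLp (hΛ.mono hK) _ (red_Fix (a4 i)) (by rw [← map_mul, a5]) fun Q hQ h =>
          (h1 Q (hQ.trans hK) (hLp.to_le hQ) (br_ne hp hO hLp hQ (red_Fix fun u hu =>
            cj_of_comm (hc u hu) (a2 i)) (Fix_anti le_top hβ.fix) (one_mem _)
            (by rwa [mul_one, ← red_lf hβ.2.2, ← map_mul]))).rr).mul
        (rr_mono (((irr_char hθ).inv.mono inf_le_left).rr.shift ⟨hs, mem_CC_zpowers.2 rfl⟩
          fun h hh => mem_CC_zpowers.1 hh.2) hL)).congr fun u hu => ?_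
      rw [← hc u hu, h2 u s hps (hc u hu), ← mul_assoc]
      congr 1
      rw [← ev_sg (O := O) χ, ← sg_mul, a3, Finset.mul_sum, map_sum, Finset.mul_sum]
      refine Finset.sum_congr rfl fun i _ => ?_
      rw [← Ph_eq hp hO hχ.cls (PE_of_mem hLp hu) (a5 i) (a4 i u hu), mul_smul_comm, ev_smul,
        ← mul_assoc (sg u), ← comm_of_fix hβ.lf.fix (mem_Sup_top _), hχβ, mul_left_comm]
    · obtain ⟨O', hO'⟩ := exists_val hl
      refine ⟨O', hO', fib (PE p) (preg p) (fun _ _ => PE_conj) (fun _ _ => preg_conj) (fun g => ?_)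
        (fun u s u' s' a b c d e f g => pe_unique hp a b c d e f g) hΨ fun u hu hpu => ?_⟩
      · obtain ⟨w, s, a, b, c, d, f, -⟩ := decomp hp g
        exact ⟨w, s, a, b, c, d, f⟩
      rw [Finset.sum_congr rfl fun s hs => by
        rw [h2 u s (mem_filter.1 hs).2 (mem_CC_zpowers.1 (mem_el.1 (mem_filter.1 hs).1).2)],
        ← Finset.mul_sum, mul_left_comm]
      exact mul_mem (mem_of_intZ (IsIntegral.of_pow hn (by rw [h3]; exact isIntegral_one)))
        (frobR hp hl hlp hO' ((hκ.mono inf_le_left).rr.shift ⟨hu, mem_CC_zpowers.2 rfl⟩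
          fun h hh => mem_CC_zpowers.1 hh.2))
  exact ⟨n, by rw [← hq, hn', Rat.cast_intCast]⟩

end Pool.Agent.P.MP_1a5b27_al.Cy
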