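import Pool.Agent.P.MP_1a5b27_al.Cy.Tl

set_option autoImplicit false
set_option linter.style.haveILetI false
set_option linter.unusedSectionVars false
set_option linter.unusedSimpArgs false

open Classical Finset Polynomial
open Pool.Agent.P.MP_ebbeae_al

namespace Pool.Agent.P.MP_1a5b27_al.Cy

variable {G : Type} [Group G] [Fintype G] {O : ValuationSubring ℂ} {p : ℕ}

/-- A character of order `p` of a cyclic `p`-subgroup killed by the exponent `m`. -/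
structure Dat (p : ℕ) (G : Type) [Group G] where
  m : ℕ
  v0 : G
  κ : G → ℂ
  hp : p.Prime
  pe : ∃ N, v0 ^ p ^ N = 1
  mul : ∀ v ∈ Subgroup.zpowers v0, ∀ w ∈ Subgroup.zpowers v0, κ (v * w) = κ v * κ w
  pow : ∀ v, κ v ^ p = 1
  ne : ∃ c ∈ Subgroup.zpowers v0, κ c ≠ 1
  kill : v0 ^ m = 1
  reg : ∀ s : G, ¬ p ∣ orderOf s → s ^ m = 1

namespace Dat

variable (d : Dat p G)

abbrev V : Subgroup G := Subgroup.zpowers d.v0

theorem one : d.κ 1 = 1 := by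
  have h := d.mul 1 (one_mem _) 1 (one_mem _)
  rw [mul_one] at h
  refine (mul_eq_left₀ fun h0 => ?_).1 h.symm
  have := d.pow 1
  rw [h0, zero_pow d.hp.ne_zero] at this
  exact zero_ne_one this

theorem kpow {v : G} (hv : v ∈ d.V) (n : ℕ) : d.κ (v ^ n) = d.κ v ^ n := by
  induction n with
  | zero => rw [pow_zero, pow_zero, d.one]
  | succ n ih => rw [pow_succ, pow_succ, d.mul _ (pow_mem hv n) v hv, ih]

theorem gen {v : G} (hv : v ∈ d.V) : d.κ v ≠ 1 ↔ Subgroup.zpowers v = d.V := by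
  constructor
  · intro h
    obtain ⟨n, rfl⟩ := mem_powers_iff_mem_zpowers.2 hv
    refine zpowers_pow d.hp d.pe ?_
    rintro ⟨c, rfl⟩
    exact h (by simp only; rw [d.kpow (Subgroup.mem_zpowers _), pow_mul, d.pow, one_pow])
  · intro h h1
    obtain ⟨c, hc, h2⟩ := d.ne
    obtain ⟨n, rfl⟩ := mem_powers_iff_mem_zpowers.2 (show c ∈ Subgroup.zpowers v from h ▸ hc)
    exact h2 (by simp only; rw [d.kpow hv, h1, one_pow])

theorem kil {v : G} (hv : v ∈ d.V) : v ^ d.m = 1 := by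
  obtain ⟨n, rfl⟩ := mem_powers_iff_mem_zpowers.2 hv
  simp only
  rw [pow_right_comm, d.kill, one_pow]

/-- The twisting function. -/
noncomputable def Λ (g : G) : ℂ := if g ^ d.m ∈ d.V then d.κ (g ^ d.m) else 1

theorem ne_iff {g : G} : d.Λ g ≠ 1 ↔ Subgroup.zpowers (g ^ d.m) = d.V := by
  rw [Λ]
  split_ifs with h
  · exact d.gen h
  · exact iff_of_false (by simp) fun e => h (e ▸ Subgroup.mem_zpowers _)

theorem comm {g v : G} (h : d.Λ g ≠ 1) (hv : v ∈ d.V) : Commute g v := by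
  obtain ⟨n, rfl⟩ := mem_powers_iff_mem_zpowers.2
    (show v ∈ Subgroup.zpowers (g ^ d.m) from d.ne_iff.1 h ▸ hv)
  exact ((Commute.refl g).pow_right _).pow_right n

theorem Λ_one : d.Λ 1 = 1 := by simp [Λ, d.one]

theorem Λ_root (g : G) : d.Λ g ^ p = 1 := by
  rw [Λ]; split_ifs
  · exact d.pow _
  · exact one_pow _

theorem Λ_mul (g : G) {v : G} (hv : v ∈ d.V) : d.Λ (g * v) = d.Λ g := by
  have key : ∀ g, ∀ v ∈ d.V, d.Λ g ≠ 1 → d.Λ (g * v) = d.Λ g := fun g v hv h => by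
    rw [Λ, Λ, (d.comm h hv).mul_pow, d.kil hv, mul_one]
  by_cases h : d.Λ g = 1
  · by_contra h1
    have := key _ _ (inv_mem hv) (h ▸ h1)
    rw [mul_inv_cancel_right] at this
    exact h1 this.symm
  · exact key g v hv h

theorem Λ_reg (u s : G) (hs : preg p s) (hc : u * s = s * u) : d.Λ (u * s) = d.Λ u := by
  rw [Λ, Λ, Commute.mul_pow hc, d.reg s hs, mul_one]

theorem Λ_pow (g : G) (r : ℕ) (hr : r.Coprime (Nat.card G)) : d.Λ (g ^ r) = d.Λ g ^ r := by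
  rw [Λ, Λ, pow_right_comm]
  by_cases h : g ^ d.m ∈ d.V
  · rw [if_pos h, if_pos (pow_mem h r), d.kpow h]
  · rw [if_neg h, one_pow, if_neg]
    intro h1
    exact h (Subgroup.zpowers_le.2 h1 (mem_zpowers_pow_iff.2
      (hr.coprime_dvd_right (orderOf_dvd_natCard _))))

include d in
theorem dvd : p ∣ Nat.card G := by
  haveI := Fact.mk d.hp
  obtain ⟨c, hc, h⟩ := d.ne
  obtain ⟨n, hn⟩ := (PE.pgroup d.pe).exists_card_eq
  refine (dvd_pow_self p ?_).trans (hn ▸ d.V.card_subgroup_dvd_card)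
  rintro rfl
  rw [pow_zero, Subgroup.card_eq_one] at hn
  rw [hn, Subgroup.mem_bot] at hc
  exact h (hc ▸ d.one)

/-- The stabiliser of the character. -/
def K : Subgroup G where
  carrier := {n | cs n d.V = d.V ∧ ∀ v ∈ d.V, d.κ (n * v * n⁻¹) = d.κ v}
  mul_mem' {a b} ha hb := ⟨by rw [← cs_cs, hb.1, ha.1], fun v hv => by
    rw [← hb.2 v hv, ← ha.2 _ (hb.1.le (conj_mem_cs.2 hv))]; simp [mul_assoc]⟩
  one_mem' := ⟨cs_one _, fun v _ => by simp⟩
  inv_mem' {a} h := ⟨cs_inv_eq h.1, fun v hv => by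
    rw [← h.2 _ ((cs_inv_eq h.1).le (conj_mem_cs.2 hv))]; simp [mul_assoc]⟩

theorem mem_K {g : G} (h : ∀ v ∈ d.V, Commute g v) : g ∈ d.K :=
  ⟨cs_of_mem_CC (mem_CC.2 fun v hv => (h v hv).symm.eq), fun v hv => by
    rw [(h v hv).eq, mul_inv_cancel_right]⟩

theorem V_le : d.V ≤ d.K := fun g hg => d.mem_K fun v hv => by
  obtain ⟨a, rfl⟩ := hg
  obtain ⟨b, rfl⟩ := hv
  exact (Commute.refl _).zpow_zpow a b

theorem cls : ClassOn d.K d.Λ := fun a ha y _ => by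
  rw [Λ, Λ, conj_pow]
  have : a * y ^ d.m * a⁻¹ ∈ d.V ↔ y ^ d.m ∈ d.V := by
    conv_lhs => rw [← ha.1]
    exact conj_mem_cs
  by_cases h : y ^ d.m ∈ d.V
  · rw [if_pos h, if_pos (this.2 h), ha.2 _ h]
  · rw [if_neg h, if_neg (this.not.2 h)]

theorem TI {x : G} (hx : d.Λ x ≠ 1) (h : G) : d.Λ (h⁻¹ * x * h) ≠ 1 ↔ h ∈ stab d.V := by
  have : (h⁻¹ * x * h) ^ d.m = h⁻¹ * x ^ d.m * h⁻¹⁻¹ := by rw [← conj_pow, inv_inv]
  rw [ne_iff, this, ← cs_zpowers, d.ne_iff.1 hx, ← mem_stab, inv_mem_iff]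

theorem index : Nat.card (stab d.V) ≤ Nat.card d.K * (p - 1) := by
  have hζ := Complex.isPrimitiveRoot_exp p d.hp.ne_zero
  have h0 := Subgroup.mem_zpowers d.v0
  have h1 : ((nthRootsFinset p (1 : ℂ)).erase 1).card = p - 1 := by
    rw [card_erase_of_mem ((mem_nthRootsFinset d.hp.pos 1).2 (one_pow _)), hζ.card_nthRootsFinset]
  rw [← card_el, ← card_el, ← h1]
  refine card_le_mul_card_image_of_maps_to (f := fun n => d.κ (n * d.v0 * n⁻¹))
    (fun n hn => ?_) _ fun z _ => ?_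
  · have hn : cs n d.V = d.V := mem_stab.1 (mem_el.1 hn)
    exact mem_erase.2 ⟨(d.gen (hn.le (conj_mem_cs.2 h0))).2 (by rw [← cs_zpowers, hn]),
      (mem_nthRootsFinset d.hp.pos 1).2 (d.pow _)⟩
  · rcases ((el (stab d.V)).filter fun n => d.κ (n * d.v0 * n⁻¹) = z).eq_empty_or_nonempty with
      h | ⟨n0, hn0⟩
    · rw [h]; exact Nat.zero_le _
    obtain ⟨a1, a2⟩ := mem_filter.1 hn0
    have a1 := mem_el.1 a1
    refine card_le_card_of_injOn (· * n0⁻¹) (fun n hn => ?_) fun _ _ _ _ h => mul_right_cancel h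
    obtain ⟨b1, b2⟩ := mem_filter.1 (mem_coe.1 hn)
    have b1 := mem_el.1 b1
    refine mem_coe.2 (mem_el.2 ⟨mul_mem b1 (inv_mem a1), fun v hv => ?_⟩)
    obtain ⟨i, hi⟩ := mem_powers_iff_mem_zpowers.2 ((inv_mem a1).le (conj_mem_cs.2 hv))
    simp only at hi ⊢
    have e1 : n * n0⁻¹ * v * (n * n0⁻¹)⁻¹ = (n * d.v0 * n⁻¹) ^ i := by rw [conj_pow, hi]; group
    have e2 : v = (n0 * d.v0 * n0⁻¹) ^ i := by rw [conj_pow, hi]; group
    rw [e1, d.kpow (b1.le (conj_mem_cs.2 h0)), b2, ← a2, ← d.kpow (a1.le (conj_mem_cs.2 h0)), ← e2]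

theorem hom {D Q : Subgroup G} (hf : ∀ x ∈ D, ∀ y ∈ D, (x * y) ^ d.m = x ^ d.m * y ^ d.m)
    (hV : ∀ x ∈ D, x ^ d.m ∈ d.V) {g : G} (hg : cs g⁻¹ Q ≤ D) :
    ∀ x ∈ Q, ∀ y ∈ Q, d.Λ (x * y) = d.Λ x * d.Λ y := by
  have h1 : ∀ x ∈ Q, g⁻¹ * x * g⁻¹⁻¹ ∈ D := fun x hx => hg (conj_mem_cs.2 hx)
  have h2 : ∀ x ∈ Q, x ^ d.m ∈ cs g d.V := fun x hx => by
    have := hV _ (h1 x hx)
    rwa [conj_pow, inv_inv, ← mem_cs] at this
  by_cases h : cs g d.V = d.V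
  · intro x hx y hy
    rw [h] at h2
    have h3 := hf _ (h1 x hx) _ (h1 y hy)
    rw [conj_mul, conj_pow, conj_pow, conj_pow, conj_mul, mul_left_inj, mul_right_inj] at h3
    rw [Λ, Λ, Λ, if_pos (h2 _ (mul_mem hx hy)), if_pos (h2 x hx), if_pos (h2 y hy), h3,
      d.mul _ (h2 x hx) _ (h2 y hy)]
  · have h3 : ∀ x ∈ Q, d.Λ x = 1 := fun x hx => by
      by_contra h4
      exact h (Subgroup.eq_of_le_of_card_ge ((d.ne_iff.1 h4).ge.trans
        (Subgroup.zpowers_le.2 (h2 x hx)))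
        (cs_card g _).le).symm
    intro x hx y hy
    rw [h3 x hx, h3 y hy, h3 _ (mul_mem hx hy), mul_one]

/-- The average over the cosets of `V`. -/
noncomputable def R (χ : G → ℂ) (x : G) : ℂ := (Nat.card d.V : ℂ)⁻¹ * ∑ v ∈ el d.V, χ (x * v)

theorem R_mul (χ : G → ℂ) (x : G) {w : G} (hw : w ∈ d.V) : d.R χ (x * w) = d.R χ x := by
  rw [R, R, ← sum_el_mul hw d.V.one_mem fun v => χ (x * v)]
  simp [mul_assoc]

theorem R_conj {χ : G → ℂ} (hχ : ClassOn ⊤ χ) {h : G} (hh : cs h d.V = d.V) (x : G) :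
    d.R χ (h * x * h⁻¹) = d.R χ x := by
  rw [R, R]
  congr 1
  refine (Finset.sum_equiv (MulAut.conj h).toEquiv (fun y => ?_) fun y _ => ?_).symm
  · rw [mem_el, mem_el]
    conv_rhs => rw [← hh]
    exact conj_mem_cs.symm
  · change _ = χ (_ * (h * y * h⁻¹))
    rw [conj_mul, hχ h trivial _ trivial]

theorem ipo_R (χ : G → ℂ) {F : G → ℂ} (hF : ∀ x, ∀ v ∈ d.V, F (x * v) = F x) {θ : G → ℂ}
    (hθ : θ ∈ irr d.K) :
    ∃ ε : ℤ, ipo d.K (fun x => F x * d.R χ x) θ = ε * ipo d.K (fun x => F x * χ x) θ := by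
  obtain ⟨ε, hε⟩ := avg_irr d.V_le (fun a ha => ha.1) hθ
  refine ⟨ε, ?_⟩
  have e : ∀ v ∈ el d.V, ∑ x ∈ el d.K, F x * χ (x * v) * θ x⁻¹ =
      ∑ x ∈ el d.K, F x * χ x * θ (v * x⁻¹) := fun v hv => by
    have hv := mem_el.1 hv
    rw [← sum_el_mul d.K.one_mem (d.V_le hv) fun x => F x * χ x * θ (v * x⁻¹)]
    exact Finset.sum_congr rfl fun x _ => by simp [hF x v hv]
  have h0 := card_ne' d.V
  rw [ipo, ipo, mul_left_comm]
  congr 1
  apply mul_left_cancel₀ h0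
  calc _ = ∑ x ∈ el d.K, ∑ v ∈ el d.V, F x * χ (x * v) * θ x⁻¹ := by
        rw [Finset.mul_sum]
        refine Finset.sum_congr rfl fun x _ => ?_
        rw [R, ← Finset.sum_mul, ← Finset.mul_sum]; field_simp
    _ = _ := by
        rw [Finset.sum_comm, Finset.sum_congr rfl e, Finset.sum_comm, Finset.mul_sum, Finset.mul_sum]
        refine Finset.sum_congr rfl fun x hx => ?_
        rw [← Finset.mul_sum, hε _ (inv_mem (mem_el.1 hx))]; ring

/-- The lower bound for the norm on the trivial intersection set. -/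
theorem lower {χ : G → ℂ} (hχ : ClassOn ⊤ χ)
    (hint : ∀ j, ∀ θ ∈ irr d.K, ∃ n : ℤ, ipo d.K (fun g => d.Λ g ^ j * χ g) θ = n)
    {x : G} (hx : d.Λ x ≠ 1) (h0 : d.R χ x ≠ 0) :
    (Nat.card d.K * (p - 1 : ℕ) : ℝ) ≤
      p * ∑ y ∈ univ.filter (d.Λ · ≠ 1), ‖d.R χ y‖ ^ 2 := by
  haveI := Fact.mk d.hp
  have h1 : ∀ j ∈ (range p).erase 0, 2 * (Nat.card d.K : ℝ) ≤
      ∑ y ∈ el d.K, ‖(1 - d.Λ y ^ j) * d.R χ y‖ ^ 2 := by
    intro j hj
    refine two_le (fun a ha y hy => by simp only [d.cls a ha y hy, d.R_conj hχ ha.1])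
      (fun θ hθ => ?_) (by simp [d.Λ_one]) (d.mem_K fun v hv => d.comm hx hv)
      (mul_ne_zero (sub_ne_zero.2 fun e => ?_) h0)
    · obtain ⟨ε, hε⟩ := d.ipo_R χ (F := fun y => 1 - d.Λ y ^ j) (fun y v hv => by
        simp only [d.Λ_mul y hv]) hθ
      obtain ⟨a, ha⟩ := hint 0 θ hθ
      obtain ⟨b, hb⟩ := hint j θ hθ
      refine ⟨ε * (a - b), ?_⟩
      rw [hε]
      simp only [sub_mul, pow_zero] at ha ⊢
      rw [ipo_sub, ha, hb]; push_cast; ring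
    · have h2 := orderOf_eq_prime (d.Λ_root x) hx
      have h3 := orderOf_dvd_of_pow_eq_one e.symm
      obtain ⟨j0, jp⟩ := mem_erase.1 hj
      exact j0 (Nat.eq_zero_of_dvd_of_lt (h2 ▸ h3) (mem_range.1 jp))
  have h2 := Finset.sum_le_sum h1
  rw [sum_const, card_erase_of_mem (mem_range.2 d.hp.pos), card_range, nsmul_eq_mul,
    Finset.sum_erase _ (by simp), Finset.sum_comm] at h2
  have h3 : ∑ y ∈ el d.K, ∑ j ∈ range p, ‖(1 - d.Λ y ^ j) * d.R χ y‖ ^ 2 =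
      ∑ y ∈ univ.filter (d.Λ · ≠ 1), 2 * p * ‖d.R χ y‖ ^ 2 := by
    rw [← Finset.sum_subset (s₁ := univ.filter (d.Λ · ≠ 1)) fun y hy =>
      mem_el.2 (d.mem_K fun v hv => d.comm (mem_filter.1 hy).2 hv)]
    · refine Finset.sum_congr rfl fun y hy => ?_
      simp only [norm_mul, mul_pow]
      rw [← Finset.sum_mul, sum_root d.hp (d.Λ_root y) (mem_filter.1 hy).2]
    · intro y _ hy
      have : d.Λ y = 1 := by simpa using hy
      simp [this]
  rw [h3, ← Finset.mul_sum] at h2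
  linarith

theorem tw (χ : G → ℂ) (t : G → G) (ht : Function.Injective t)
    (h : ∀ x, d.Λ x ≠ 1 → ∃ v ∈ d.V, t x = x * v) :
    ∑ x ∈ univ.filter (d.Λ · ≠ 1), χ (t x) * starRingEnd ℂ (d.R χ x) =
      ((∑ x ∈ univ.filter (d.Λ · ≠ 1), ‖d.R χ x‖ ^ 2 : ℝ) : ℂ) := by
  have key : ∀ t : G → G, Function.Injective t → (∀ x, d.Λ x ≠ 1 → ∃ v ∈ d.V, t x = x * v) →
      ∑ x ∈ univ.filter (d.Λ · ≠ 1), χ (t x) * starRingEnd ℂ (d.R χ x) =
        ∑ x ∈ univ.filter (d.Λ · ≠ 1), χ x * starRingEnd ℂ (d.R χ x) := fun t ht h => by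
    rw [← sum_inj t (fun x hx => ?_) (fun _ _ _ _ e => ht e)
      fun x => χ x * starRingEnd ℂ (d.R χ x)]
    · refine Finset.sum_congr rfl fun x hx => ?_
      obtain ⟨v, hv, e⟩ := h x (mem_filter.1 hx).2
      rw [e, d.R_mul χ x hv]
    · obtain ⟨v, hv, e⟩ := h x (mem_filter.1 hx).2
      exact mem_filter.2 ⟨mem_univ _, by rw [e, d.Λ_mul x hv]; exact (mem_filter.1 hx).2⟩
  have h0 := card_ne' d.V
  rw [key t ht h, Complex.ofReal_sum]
  apply mul_left_cancel₀ h0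
  rw [← card_el, ← nsmul_eq_mul, ← sum_const, ← Finset.sum_congr rfl fun v hv =>
    key (· * v) (mul_left_injective v) fun x _ => ⟨v, mem_el.1 hv, rfl⟩, Finset.sum_comm,
    Finset.mul_sum]
  refine Finset.sum_congr rfl fun x _ => ?_
  rw [nsq, ← Finset.sum_mul, ← mul_assoc, card_el, R, mul_inv_cancel_left₀ h0]

end Dat

end Pool.Agent.P.MP_1a5b27_al.Cy
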