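import Pool.Agent.P.MP_1a5b27_al.D

set_option autoImplicit false
set_option linter.style.haveILetI false
set_option linter.unusedSectionVars false
set_option linter.unusedSimpArgs false

open Classical Finset Polynomial
open Pool.Agent.P.MP_ebbeae_al

namespace Pool.Agent.P.MP_1a5b27_al.Cy

variable {G : Type} [Group G] [Fintype G] {O : ValuationSubring ℂ} {p : ℕ}

/-- The character cut out by the lift of an idempotent. -/
noncomputable def Ph (χ : G → ℂ) (x : GA (kk O) G) (u : G) : ℂ := ev χ (sg u * lf x)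

theorem lf_fixed {x : GA (kk O) G} {u : G} (h : cj u x = x) : cj u (lf x) = lf x :=
  lf_Fix (fix_zpowers h) u (Subgroup.mem_zpowers u)

theorem Ph_eq (hp : p.Prime) (hO : (p : O) ∈ mx O) {χ : G → ℂ} (hχ : ClassOn ⊤ χ) {u : G}
    (hu : PE p u) {j : GA O G} (hjj : j * j = j) (hj : cj u j = j) :
    ev χ (sg u * j) = Ph χ (red j) u := by
  have h1 : red j * red j = red j := by rw [← map_mul, hjj]
  exact lemmaA hp hO (Subgroup.mem_top _) hu (mem_Sup_top _) (mem_Sup_top _) hjj (lf_idem h1) hj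
    (lf_fixed (by rw [← red_cj, hj])) (by rw [red_lf h1]) hχ

theorem Ph_char {χ : G → ℂ} (hχ : CharOn ⊤ χ) {L : Subgroup G} {x : GA (kk O) G}
    (hx : x ∈ Fix (kk O) L) (hxx : x * x = x) : CharOn L (Ph χ x) :=
  hχ.cut le_top (mem_Sup_top _) (lf_Fix hx) (lf_idem hxx)

theorem Ph_zero (hp : p.Prime) (hO : (p : O) ∈ mx O) {χ : G → ℂ} (hχ : ClassOn ⊤ χ) {u : G}
    (hu : PE p u) {x : GA (kk O) G} (hxx : x * x = x) (hx : cj u x = x)
    (h0 : br (Subgroup.zpowers u) x = 0) : Ph χ x u = 0 :=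
  van hp hO (Subgroup.mem_top _) hu (mem_Sup_top _) (lf_idem hxx) (lf_fixed hx)
    (by rwa [red_lf hxx]) hχ

theorem Ph_cj (hp : p.Prime) (hO : (p : O) ∈ mx O) {χ : G → ℂ} (hχ : ClassOn ⊤ χ) {u : G}
    (hu : PE p u) {x : GA (kk O) G} (hxx : x * x = x) (hx : cj u x = x) (c : G) :
    Ph χ (cj c x) (c * u * c⁻¹) = Ph χ x u := by
  have h1 := Ph_eq hp hO hχ (hu.conj c) (j := cj c (lf x)) (by rw [← cj_mul, lf_idem hxx])
    (by rw [cj_cj, inv_mul_cancel_right, ← cj_cj, lf_fixed hx])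
  rw [red_cj, red_lf hxx, ← cj_sg, ← cj_mul, hχ.ev_cj (mem_Sup_top _) trivial] at h1
  exact h1.symm

theorem Ph_add (hp : p.Prime) (hO : (p : O) ∈ mx O) {χ : G → ℂ} (hχ : ClassOn ⊤ χ) {u : G}
    (hu : PE p u) {x y : GA (kk O) G} (hxx : x * x = x) (hyy : y * y = y) (hxy : x * y = 0)
    (hyx : y * x = 0) (hx : cj u x = x) (hy : cj u y = y) :
    Ph χ (x + y) u = Ph χ x u + Ph χ y u := by
  have h0 : (x + y) * (x + y) = x + y := by
    rw [add_mul, mul_add, mul_add, hxx, hyy, hxy, hyx, add_zero, zero_add]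
  set J := lf (x + y) with hJ
  have hJJ : J * J = J := lf_idem h0
  have hJu : J ∈ Fix O (Subgroup.zpowers u) := lf_Fix (fix_zpowers (by rw [cj_add, hx, hy]))
  set a := J * lf x * J with ha
  have hau : a ∈ Fix O (Subgroup.zpowers u) := mul_mem (mul_mem hJu (lf_Fix (fix_zpowers hx))) hJu
  have hra : red a = x := by
    rw [ha, map_mul, map_mul, red_lf h0, red_lf hxx, add_mul x, hxx, hyx, add_zero, mul_add, hxx,
      hxy, add_zero]
  obtain ⟨r, n, h⟩ := fit2 a a
  obtain ⟨h4, h5⟩ := h a (Or.inl rfl)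
  set I := a * aeval a r with hI
  have hIu : I ∈ Fix O (Subgroup.zpowers u) := mul_mem hau (aeval_mem hau r)
  have hrI : red I = x := by
    rw [map_mul, map_pow, hra, idem_pow hxx, map_sub, map_one, mul_sub, mul_one, hI, map_mul, hra,
      ← mul_assoc, hxx] at h5
    rw [hI, map_mul, hra]; exact (sub_eq_zero.1 h5).symm
  have h1 : J * I = I := by rw [hI, ha]; simp only [← mul_assoc, hJJ]
  have h2 : I * J = I := by
    have h7 : a * J = a := by rw [ha, mul_assoc, hJJ]
    rw [hI, ← (comm_aeval (Commute.refl a) r).eq, mul_assoc, h7]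
  have h3 := Ph_eq hp hO hχ hu (j := J - I)
    (by rw [sub_mul, mul_sub, mul_sub, hJJ, h1, h2, h4, sub_self, sub_zero])
    (sub_mem hJu hIu u (Subgroup.mem_zpowers u))
  have h6 := Ph_eq hp hO hχ hu h4 (hIu u (Subgroup.mem_zpowers u))
  rw [map_sub, red_lf h0, hrI, add_sub_cancel_left, mul_sub, map_sub] at h3
  rw [hrI] at h6
  rw [← h3, ← h6, Ph, add_sub_cancel]

theorem Ph_sum (hp : p.Prime) (hO : (p : O) ∈ mx O) {χ : G → ℂ} (hχ : ClassOn ⊤ χ) {u : G}
    (hu : PE p u) (n : ℕ) (y : ℕ → GA (kk O) G) (hyy : ∀ r, y r * y r = y r)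
    (ho : ∀ r < n, ∀ r' < n, r ≠ r' → y r * y r' = 0) (hy : ∀ r, cj u (y r) = y r) :
    Ph χ (∑ r ∈ range n, y r) u = ∑ r ∈ range n, Ph χ (y r) u := by
  induction n with
  | zero =>
    rw [sum_range_zero, sum_range_zero]
    exact Ph_zero hp hO hχ hu (mul_zero _) (cj_zero _) (br_zero _)
  | succ n ih =>
    have ho' : ∀ r < n, ∀ r' < n, r ≠ r' → y r * y r' = 0 :=
      fun r hr r' hr' => ho r (by omega) r' (by omega)
    rw [sum_range_succ, sum_range_succ, ← ih ho']
    refine Ph_add hp hO hχ hu ?_ (hyy n) ?_ ?_ ?_ (hy n)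
    · rw [Finset.sum_mul_sum]
      refine Finset.sum_congr rfl fun r hr => ?_
      rw [Finset.sum_eq_single r, hyy]
      · exact fun r' hr' h => ho' r (mem_range.1 hr) r' (mem_range.1 hr') h.symm
      · exact fun h => absurd hr h
    · rw [Finset.sum_mul]
      exact Finset.sum_eq_zero fun r hr =>
        ho r (by have := mem_range.1 hr; omega) n (by omega) (mem_range.1 hr).ne
    · rw [Finset.mul_sum]
      exact Finset.sum_eq_zero fun r hr =>
        ho n (by omega) r (by have := mem_range.1 hr; omega) (mem_range.1 hr).ne'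
    · rw [cj_sum]; exact Finset.sum_congr rfl fun r _ => hy r

theorem poly (hp : p.Prime) {k : Type} [Field k] [CharP k p] (s : Multiset k) : ∃ H : k[X],
    (s.map fun a => X - C a).prod ∣ H * H - H ∧
    (∀ r < p, ∀ r' < p, r ≠ r' → (s.map fun a => X - C a).prod ∣
      H.comp (X + C (r : k)) * H.comp (X + C (r' : k))) ∧
    (s.map fun a => X - C a).prod ∣ ∑ r ∈ range p, H.comp (X + C (r : k)) - 1 := by
  haveI := Fact.mk hp
  let ρ : k → k := fun a => (QuotientAddGroup.mk a : k ⧸ AddSubgroup.zmultiples (1 : k)).out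
  have h1 : ∀ a (r : ℕ), ρ (a + r) = ρ a := fun a r => by
    simp only [ρ]
    congr 1
    rw [eq_comm, QuotientAddGroup.eq]
    exact ⟨r, by simp⟩
  have h2 : ∀ a, ∃ r < p, ρ a = a + r := fun a => by
    obtain ⟨⟨_, z, rfl⟩, hz⟩ := QuotientAddGroup.mk_out_eq_add (AddSubgroup.zmultiples (1 : k)) a
    refine ⟨(z : ZMod p).val, ZMod.val_lt _, hz.trans ?_⟩
    congr 1
    rw [ZMod.natCast_val, ZMod.cast_intCast (dvd_refl p)]; simp
  let S : Finset k := (s.toFinset ×ˢ range p).image fun z => z.1 + z.2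
  let h0 : k[X] := Lagrange.interpolate S id fun a => if a = ρ a then 1 else 0
  have h3 : ∀ a ∈ s, ∀ r < p, (h0.comp (X + C (r : k))).eval a = if a + r = ρ a then 1 else 0 := by
    intro a ha r hr
    rw [eval_comp, eval_add, eval_X, eval_C, ← h1 a r]
    exact Lagrange.eval_interpolate_at_node (v := id) _ (Set.injOn_id _)
      (mem_image.2 ⟨(a, r), mem_product.2 ⟨Multiset.mem_toFinset.2 ha, mem_range.2 hr⟩, rfl⟩)
  have key : ∀ g : k[X], (∀ a ∈ s, g.eval a = 0) →
      (s.map fun a => X - C a).prod ∣ g ^ p ^ Multiset.card s := fun g hg => by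
    refine (Multiset.prod_dvd_prod_of_dvd _ (fun _ => g) fun a ha =>
      dvd_iff_isRoot.2 (hg a ha)).trans ?_
    rw [Multiset.map_const', Multiset.prod_replicate]
    exact pow_dvd_pow _ (Nat.lt_pow_self hp.one_lt).le
  have hinj : ∀ (a : k), ∀ r < p, ∀ r' < p, a + r = ρ a → a + r' = ρ a → r = r' :=
    fun a r hr r' hr' e e' => CharP.natCast_injOn_Iio k p hr hr' (add_left_cancel (e.trans e'.symm))
  refine ⟨h0 ^ p ^ Multiset.card s, ?_, fun r hr r' hr' hne => ?_, ?_⟩
  · rw [← mul_pow, ← sub_pow_char_pow]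
    refine key _ fun a ha => ?_
    have := h3 a ha 0 hp.pos
    rw [Nat.cast_zero, map_zero, add_zero, comp_X] at this
    rw [eval_sub, eval_mul, this]
    split_ifs <;> simp
  · rw [pow_comp, pow_comp, ← mul_pow]
    refine key _ fun a ha => ?_
    rw [eval_mul, h3 a ha r hr, h3 a ha r' hr']
    split_ifs with e e'
    · exact absurd (hinj a r hr r' hr' e e') hne
    all_goals simp
  · simp only [pow_comp]
    rw [← sum_pow_char_pow, ← one_pow (M := k[X]) (p ^ Multiset.card s), ← sub_pow_char_pow]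
    refine key _ fun a ha => ?_
    obtain ⟨r, hr, e⟩ := h2 a
    rw [eval_sub, eval_finsetSum, eval_one, Finset.sum_eq_single r, h3 a ha r hr, if_pos e.symm,
      sub_self]
    · intro r' hr' hne
      rw [h3 a ha r' (mem_range.1 hr'), if_neg fun e' =>
        hne (hinj a r' (mem_range.1 hr') r hr e' e.symm)]
    · exact fun h => absurd (mem_range.2 hr) h

end Pool.Agent.P.MP_1a5b27_al.Cy
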