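import Pool.Agent.P.MP_1a5b27_al.Cy.Int

set_option autoImplicit false
set_option linter.style.haveILetI false
set_option linter.unusedSectionVars false
set_option linter.unusedSimpArgs false

open Classical Finset Polynomial
open Pool.Agent.P.MP_ebbeae_al

namespace Pool.Agent.P.MP_1a5b27_al.Cy

variable {G : Type} [Group G] [Fintype G] {O : ValuationSubring ℂ} {p : ℕ}

theorem charOn_of_mul {Q : Subgroup G} {f : G → ℂ} (h1 : f 1 = 1)
    (h : ∀ x ∈ Q, ∀ y ∈ Q, f (x * y) = f x * f y) : CharOn Q f := by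
  let ρ : Representation ℂ Q ℂ :=
    { toFun := fun g => f g • 1
      map_one' := by simp [h1]
      map_mul' := fun a b => by rw [Subgroup.coe_mul, h a a.2 b b.2, smul_mul_smul_comm, mul_one] }
  have e : ρ.character = fun g : Q => f g := by
    ext g; simp [Representation.character, ρ]
  rw [CharOn, ← e]; exact isChar_of_rep ρ

theorem exists_kappa (hp : p.Prime) {v0 : G} (hv : PE p v0) (h1 : v0 ≠ 1) : ∃ κ : G → ℂ,
    (∀ v ∈ Subgroup.zpowers v0, ∀ w ∈ Subgroup.zpowers v0, κ (v * w) = κ v * κ w) ∧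
    (∀ v, κ v ^ p = 1) ∧ ∃ c ∈ Subgroup.zpowers v0, κ c ≠ 1 := by
  haveI := Fact.mk hp
  obtain ⟨φ, ⟨c, hc⟩, -⟩ := exists_hom hp hv.pgroup
    (bot_lt_iff_ne_bot.2 (Subgroup.zpowers_ne_bot.2 h1))
  refine ⟨fun v => if h : v ∈ Subgroup.zpowers v0 then ZMod.stdAddChar (φ ⟨v, h⟩).toAdd else 1,
    fun v hv w hw => ?_, fun v => ?_, c, c.2, ?_⟩
  · simp only [dif_pos hv, dif_pos hw, dif_pos (mul_mem hv hw)]
    rw [← AddChar.map_add_eq_mul, ← toAdd_mul, ← map_mul]; rfl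
  · simp only
    split_ifs
    · rw [← AddChar.map_nsmul_eq_pow]; simp
    · simp
  · simp only [dif_pos c.2, Subtype.coe_eta, hc]
    intro h
    exact one_ne_zero (ZMod.injective_stdAddChar (h.trans (AddChar.map_zero_eq_one _).symm))

theorem avg_irr {K V : Subgroup G} (hV : V ≤ K) (hn : ∀ a ∈ K, cs a V = V) {θ : G → ℂ}
    (hθ : θ ∈ irr K) : ∃ ε : ℤ, ∀ y ∈ K, ∑ v ∈ el V, θ (v * y) = Nat.card V * (ε * θ y) := by
  obtain ⟨O⟩ : Nonempty (ValuationSubring ℂ) := ⟨⊤⟩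
  let z : GA O G := ∑ d ∈ el V, sg d
  have hz : z ∈ Sup O K := sum_mem fun d hd => sg_mem_Sup (hV (mem_el.1 hd))
  have hz' : z ∈ Fix O K := fun a ha => by
    simp only [z, cj_sum, cj_sg]
    refine Finset.sum_equiv (MulAut.conj a).toEquiv (fun y => ?_) fun _ _ => rfl
    rw [mem_el, mem_el]
    conv_rhs => rw [← hn a ha]
    exact conj_mem_cs.symm
  have h1 := (om_spec hθ hz hz').2.2
  have h2 : z * z = Nat.card V • z := by
    rw [← card_el, ← sum_const]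
    conv_lhs => lhs; simp only [z]
    rw [Finset.sum_mul]
    refine Finset.sum_congr rfl fun d hd => ?_
    simp only [z, Finset.mul_sum, sg_mul]
    simpa using sum_el_mul (mem_el.1 hd) (Subgroup.one_mem _) (sg (R := O))
  have h3 : ∀ y ∈ K, ∑ v ∈ el V, θ (v * y) = om θ z * θ y := fun y hy => by
    rw [← ev_sg (O := O) θ y, ← h1 _ (sg_mem_Sup hy)]
    simp [z, Finset.sum_mul, sg_mul]
  have h4 := h1 z hz
  rw [h2, map_nsmul, nsmul_eq_mul] at h4
  by_cases h0 : ev θ z = 0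
  · exact ⟨0, fun y hy => by rw [h3 y hy, om, h0]; simp⟩
  · exact ⟨1, fun y hy => by rw [h3 y hy, ← mul_right_cancel₀ h0 h4]; simp⟩

theorem nsq (z : ℂ) : ((‖z‖ ^ 2 : ℝ) : ℂ) = z * starRingEnd ℂ z := by
  rw [← Complex.normSq_eq_norm_sq, Complex.mul_conj]

theorem two_le {K : Subgroup G} {f : G → ℂ} (hf : ClassOn K f)
    (h : ∀ θ ∈ irr K, ∃ n : ℤ, ipo K f θ = n) (h1 : f 1 = 0) {x : G} (hx : x ∈ K) (h0 : f x ≠ 0) :
    2 * (Nat.card K : ℝ) ≤ ∑ y ∈ el K, ‖f y‖ ^ 2 := by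
  choose! n hn using h
  have e1 : ∀ y ∈ K, f y = ∑ θ ∈ irr K, n θ * θ y := fun y hy => by
    rw [hf.expand hy]; exact Finset.sum_congr rfl fun θ hθ => by rw [hn θ hθ]
  have e2 : ((∑ y ∈ el K, ‖f y‖ ^ 2 : ℝ) : ℂ) = Nat.card K * ((∑ θ ∈ irr K, n θ ^ 2 : ℤ) : ℂ) := by
    have := hf.parseval f
    rw [Finset.sum_congr rfl fun θ hθ => by rw [ipo_comm K θ, hn θ hθ, ← pow_two], ipo,
      inv_mul_eq_iff_eq_mul₀ (card_ne' K)] at this
    push_cast [-Complex.ofReal_pow]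
    rw [← this]
    refine Finset.sum_congr rfl fun y hy => ?_
    have hy := mem_el.1 hy
    rw [nsq, e1 _ (K.inv_mem hy)]
    congr 1
    rw [e1 y hy, map_sum]
    exact Finset.sum_congr rfl fun θ hθ => by rw [map_mul, map_intCast, (irr_char hθ).conj hy]
  have e3 : 2 ≤ ∑ θ ∈ irr K, n θ ^ 2 := by
    by_contra hc
    obtain ⟨θ, hθ, h2⟩ : ∃ θ ∈ irr K, n θ ≠ 0 := by
      by_contra h2
      push Not at h2
      exact h0 (by rw [e1 x hx]; exact Finset.sum_eq_zero fun θ hθ => by simp [h2 θ hθ])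
    rw [← Finset.add_sum_erase _ _ hθ] at hc
    have h3 : 0 < n θ ^ 2 := by positivity
    have h4 : ∑ ψ ∈ (irr K).erase θ, n ψ ^ 2 = 0 :=
      le_antisymm (by omega) (Finset.sum_nonneg fun _ _ => sq_nonneg _)
    rw [e1 1 K.one_mem, ← Finset.add_sum_erase _ _ hθ, Finset.sum_eq_zero fun ψ hψ => by
      rw [pow_eq_zero_iff two_ne_zero |>.1
        ((Finset.sum_eq_zero_iff_of_nonneg fun _ _ => sq_nonneg _).1 h4 ψ hψ), Int.cast_zero,
        zero_mul], add_zero] at h1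
    exact mul_ne_zero (Int.cast_ne_zero.2 h2) (irr_one_ne hθ) h1
  have e4 : (∑ y ∈ el K, ‖f y‖ ^ 2 : ℝ) = Nat.card K * ((∑ θ ∈ irr K, n θ ^ 2 : ℤ) : ℝ) := by
    exact_mod_cast e2
  rw [e4, mul_comm]
  exact mul_le_mul_of_nonneg_left (by exact_mod_cast e3) (Nat.cast_nonneg _)

theorem sum_root (hp : p.Prime) {z : ℂ} (h : z ^ p = 1) (h1 : z ≠ 1) :
    ∑ j ∈ range p, ‖1 - z ^ j‖ ^ 2 = 2 * p := by
  have h2 : ∑ j ∈ range p, z ^ j = 0 := by
    have := mul_geom_sum z p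
    rw [h, sub_self] at this
    exact (mul_eq_zero.1 this).resolve_left (sub_ne_zero.2 h1)
  have h3 : z * starRingEnd ℂ z = 1 := by
    rw [← nsq, Complex.norm_eq_one_of_pow_eq_one h hp.ne_zero]; simp
  apply Complex.ofReal_injective
  rw [Complex.ofReal_sum, Finset.sum_congr rfl (g := fun j => 2 - z ^ j - starRingEnd ℂ (z ^ j))
    fun j _ => by
      have : z ^ j * starRingEnd ℂ (z ^ j) = 1 := by rw [map_pow, ← mul_pow, h3, one_pow]
      rw [nsq, map_sub, map_one]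
      linear_combination this, Finset.sum_sub_distrib, Finset.sum_sub_distrib, ← map_sum, h2]
  simp [mul_comm]

theorem sec_zero (hp : p.Prime) (hO : (p : O) ∈ mx O) {χ : G → ℂ} (hχ : ClassOn ⊤ χ)
    {β : GA (kk O) G} (hβ : IsCentralIdem ⊤ β) (hχβ : ∀ a, ev χ (lf β * a) = ev χ a) {u s : G}
    (hu : PE p u) (hs : preg p s) (hc : u * s = s * u) (h0 : br (Subgroup.zpowers u) β = 0) :
    χ (u * s) = 0 := by
  haveI := charP hp hO
  obtain ⟨n, c, E, a1, a2, a3⟩ := exists_eig hp hO hs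
  rw [← ev_sg (O := O) χ, ← sg_mul, a3, Finset.mul_sum, map_sum]
  refine Finset.sum_eq_zero fun i _ => ?_
  have a4 := cj_of_comm hc (a2 i)
  rw [mul_smul_comm, ev_smul, ← hχβ, comm_of_fix hβ.lf.fix (mem_Sup_top _), mul_assoc,
    van hp hO (Subgroup.mem_top _) hu (mem_Sup_top _) ?_ ?_ ?_ hχ, mul_zero]
  · rw [mul_assoc, ← mul_assoc (lf β), comm_of_fix hβ.lf.fix (mem_Sup_top (E i)), mul_assoc,
      hβ.lf.2.2, ← mul_assoc, a1]
  · rw [cj_mul, a4, hβ.lf.fix u trivial]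
  · rw [map_mul, red_lf hβ.2.2, br_mul hp hu.pgroup (red_Fix (fix_zpowers a4))
      (Fix_anti le_top hβ.fix), h0, mul_zero]

/-- Bessel's inequality for a trivial intersection set. -/
theorem bessel' (X : Finset G) (N : Subgroup G) (R : G → ℂ) (h1 : (1 : G) ∉ X)
    (hTI : ∀ x ∈ X, ∀ h, h⁻¹ * x * h ∈ X ↔ h ∈ N) (hR : ∀ h ∈ N, ∀ x, R (h⁻¹ * x * h) = R x)
    (S : Finset (G → ℂ)) (hS : S ⊆ irr (⊤ : Subgroup G)) (hS0 : 0 < S.card) {d : ℂ} (hd : d ≠ 0)
    (hd' : ∀ ψ ∈ S, ψ 1 = d) (hA : 0 < ∑ x ∈ X, ‖R x‖ ^ 2)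
    (hc : ∀ ψ ∈ S, ∑ x ∈ X, ψ x * starRingEnd ℂ (R x) = ((∑ x ∈ X, ‖R x‖ ^ 2 : ℝ) : ℂ)) :
    S.card * ∑ x ∈ X, ‖R x‖ ^ 2 < Nat.card N := by
  set A := ∑ x ∈ X, ‖R x‖ ^ 2 with hAd
  let c : (G → ℂ) → ℂ := fun ψ => ∑ x ∈ X, ψ x * starRingEnd ℂ (R x)
  have e1 : ((∑ ψ ∈ irr (⊤ : Subgroup G), ‖c ψ‖ ^ 2 : ℝ) : ℂ) = Nat.card N * A := by
    have e2 : ∀ ψ ∈ irr (⊤ : Subgroup G), ((‖c ψ‖ ^ 2 : ℝ) : ℂ) =
        ∑ x ∈ X, ∑ y ∈ X, starRingEnd ℂ (R x) * R y * (ψ x * ψ y⁻¹) := fun ψ hψ => by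
      rw [nsq, map_sum, Finset.sum_mul_sum]
      refine Finset.sum_congr rfl fun x _ => Finset.sum_congr rfl fun y _ => ?_
      rw [map_mul, Complex.conj_conj, (irr_char hψ).conj trivial]; ring
    rw [Complex.ofReal_sum, Finset.sum_congr rfl e2, Finset.sum_comm, hAd, Complex.ofReal_sum,
      Finset.mul_sum]
    refine Finset.sum_congr rfl fun x hx => ?_
    rw [Finset.sum_comm]
    simp only [← Finset.mul_sum, column (Subgroup.mem_top _) (Subgroup.mem_top _)]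
    simp only [Finset.mul_sum]
    rw [Finset.sum_comm, ← card_el, ← nsmul_eq_mul, ← sum_const, ← Finset.sum_subset (s₁ := el N)
      fun _ _ => mem_el.2 (Subgroup.mem_top _)]
    · refine Finset.sum_congr rfl fun h hh => ?_
      rw [Finset.sum_eq_single (h⁻¹ * x * h), hR h (mem_el.1 hh), if_pos (by group), mul_one, nsq,
        mul_comm]
      · intro y _ hy
        rw [if_neg, mul_zero]
        intro e
        exact hy (by rw [mul_inv_eq_iff_eq_mul] at e; rw [mul_assoc, e, inv_mul_cancel_left])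
      · exact fun h0 => absurd ((hTI x hx h).2 (mem_el.1 hh)) h0
    · intro h _ hh
      refine Finset.sum_eq_zero fun y hy => ?_
      rw [if_neg, mul_zero]
      intro e
      refine hh (mem_el.2 ((hTI x hx h).1 ?_))
      rw [mul_inv_eq_iff_eq_mul] at e
      rwa [mul_assoc, e, inv_mul_cancel_left]
  have e3 : ∑ ψ ∈ irr (⊤ : Subgroup G), c ψ * ψ 1 = 0 := by
    simp only [c, Finset.sum_mul]
    rw [Finset.sum_comm]
    refine Finset.sum_eq_zero fun x hx => ?_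
    simp only [mul_right_comm _ (starRingEnd ℂ (R x)), ← Finset.sum_mul]
    rw [column (Subgroup.mem_top _) (Subgroup.mem_top _), Finset.sum_eq_zero, zero_mul]
    intro h _
    rw [if_neg]
    intro e
    rw [mul_one, mul_eq_right] at e
    exact h1 (e ▸ hx)
  have e4 : ∑ ψ ∈ irr (⊤ : Subgroup G), ‖c ψ‖ ^ 2 = Nat.card N * A := by exact_mod_cast e1
  have e5 : ∑ ψ ∈ S, ‖c ψ‖ ^ 2 = S.card * A * A := by
    rw [Finset.sum_congr rfl (g := fun _ => A * A) fun ψ hψ => by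
      simp only [c]
      rw [hc ψ hψ, Complex.norm_real, Real.norm_of_nonneg hA.le, pow_two], sum_const, nsmul_eq_mul,
      mul_assoc]
  refine lt_of_mul_lt_mul_right ?_ hA.le
  rw [← e4, ← e5]
  by_cases h : ∃ ψ ∈ irr (⊤ : Subgroup G), ψ ∉ S ∧ c ψ ≠ 0
  · obtain ⟨ψ, b1, b2, b3⟩ := h
    exact Finset.sum_lt_sum_of_subset hS b1 b2 (by positivity) fun _ _ _ => sq_nonneg _
  · push Not at h
    rw [← Finset.sum_subset hS fun ψ b2 b3 => by rw [h ψ b2 b3, zero_mul],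
      Finset.sum_congr rfl (g := fun _ => (A : ℂ) * d) fun ψ hψ => by
        simp only [c]
        rw [hc ψ hψ, hd' ψ hψ], sum_const, nsmul_eq_mul] at e3
    exact absurd e3 (mul_ne_zero (by exact_mod_cast hS0.ne')
      (mul_ne_zero (by exact_mod_cast hA.ne') hd))

end Pool.Agent.P.MP_1a5b27_al.Cy
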